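import Pool.Agent.Helper82_C4K.Sum
import Pool.Agent.C4K.StLin

/-!
# SUMG: the lopsided local lemma for the walks, general version
-/

set_option autoImplicit false
set_option linter.unusedSectionVars false

namespace Pool.Agent.C4K.H82

open Finset Cl
open scoped Classical

noncomputable section

variable {V : Type} [Fintype V] {n : ℕ} {C : Fin n → Cl V} {T : ℕ}

/-- presence of one walk, the rest of the event read with the walk inserted -/
theorem pr_ins {C0 : Cl V} {p : ℝ} (h0 : 0 ≤ p) (h1 : p ≤ 1) (X : Set (C0.Wk T → Bool))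
    (w : C0.Wk T) :
    C0.Pr T p {om | om ∈ X ∧ om w = true} = p * C0.Pr T p {om | ins om w ∈ X} := by
  have hq := qq_prob (W := C0.Wk T) h0 h1
  have hI : ∀ om : C0.Wk T → Bool, om w = true → ins om w = om := by
    intro om h
    funext w'
    unfold ins
    by_cases hw : w' = w
    · subst hw; simp [h]
    · simp [hw]
  unfold Cl.Pr
  rw [LLLA.Pr_eq_Ex, LLLA.Pr_eq_Ex]
  have h := LLLA.Ex_coord_mul hq w true
    (fun om => Set.indicator {om : C0.Wk T → Bool | ins om w ∈ X} (fun _ => (1 : ℝ)) om) (by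
    intro ω η h
    have h2 : ins ω w = ins η w := by
      funext w'
      unfold ins
      by_cases hw : w' = w
      · subst hw; simp
      · simp [hw, h w' hw]
    simp only [Set.indicator_apply, Set.mem_ofPred_eq, h2])
  refine Eq.trans ?_ (h.trans ?_)
  · congr 1
    funext om
    by_cases h2 : om w = true
    · simp only [Set.indicator_apply, Set.mem_ofPred_eq, h2, hI om h2, and_true, if_true, one_mul]
    · have h3 : ¬ (om ∈ X ∧ om w = true) := fun h => h2 h.2
      simp only [Set.indicator_apply, Set.mem_ofPred_eq]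
      rw [if_neg h3, if_neg h2, zero_mul]
  · unfold qq
    simp

section sums

variable (C T) (J : Type) [Fintype J] (A : J → Set (Cf C T)) (vs : J → Finset V) (B1 : ℕ)
  (H : Type) [Fintype H] (X : ∀ c : Fin n, H → Set ((C c).Wk T → Bool)) (p ε r : ℝ)
  (L K0 M0 : ℕ) (I : Fin n → H → Finset V) (ε6 : ℝ)

/-- sum over the events of the first kind -/
theorem gtyp1 (h0 : 0 ≤ p) (h1 : p ≤ 1) (hε : 0 ≤ ε)
    (hB : ∀ v, (univ.filter fun j => v ∈ vs j).card ≤ B1)
    (hA : ∀ j c om, PC C T p {et | fixc c om et ∈ A j} ≤ ε)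
    (e2 : ∀ c u, (C c).E T p (fun om => ((univ.filter fun v => u ∈ nod L om v).card : ℝ)) ≤
      200 * ((L : ℝ) + 1) ^ 2)
    (e3 : ∀ c u, (C c).E T p (fun om => ((univ.filter fun v => ∃ w : (C c).Wk T, om w = true ∧
      w.has u ∧ w.meets (nod L om v)).card : ℝ)) ≤ 400 * ((L : ℝ) + 1) ^ 3)
    (ρ : OM C T) (R Ip : Finset (WW C T)) (U : Fin n → Finset V)
    (hI : ∀ x ∈ R, ρ x = true → x ∈ Ip) (hU : ∀ x ∈ R, ρ x = false → x.2.meets (U x.1)) :
    ∑ j : J, PF C T p {ω | cur ω ∈ A j ∧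
      ∃ x, x ∈ R ∧ (∃ v ∈ vs j, x.2.meets (nod L (cur ω x.1) v)) ∧ ω x ≠ ρ x} ≤
      Ip.card * ((T : ℝ) + 1) * (B1 * ε * (200 * ((L : ℝ) + 1) ^ 2)) +
      (∑ c, ((U c).card : ℝ)) * (B1 * ε * (400 * ((L : ℝ) + 1) ^ 3)) := by
  have hq := flat_prob' (C := C) (T := T) h0 h1
  let Y1 : WW C T × ℕ → J → V → Set (OM C T) := fun y j v =>
    {ω | cur ω ∈ A j ∧ y.1.2.n y.2 ∈ nod L (cur ω y.1.1) v}
  let Y2 : (Σ _ : Fin n, V) → J → V → Set (OM C T) := fun y j v =>
    {ω | cur ω ∈ A j ∧ ∃ w : (C y.1).Wk T, cur ω y.1 w = true ∧ w.has y.2 ∧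
      w.meets (nod L (cur ω y.1) v)}
  have hex : ∀ (g : V → ℝ) (S : ℝ), (∀ v, 0 ≤ g v) → (∑ v, g v) ≤ S →
      ∑ j : J, ∑ v ∈ vs j, ε * g v ≤ B1 * ε * S := by
    intro g S hg hS
    have h2 : ∑ j : J, ∑ v ∈ vs j, ε * g v =
        ∑ v, ((univ.filter fun j => v ∈ vs j).card : ℝ) * (ε * g v) := by
      calc ∑ j : J, ∑ v ∈ vs j, ε * g v = ∑ j : J, ∑ v, if v ∈ vs j then ε * g v else 0 := by
            apply Finset.sum_congr rfl
            intro j _
            rw [← Finset.sum_filter, Finset.filter_mem_eq_inter, Finset.univ_inter]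
        _ = ∑ v, ∑ j : J, if v ∈ vs j then ε * g v else 0 := Finset.sum_comm
        _ = _ := by
            apply Finset.sum_congr rfl
            intro v _
            rw [← Finset.sum_filter, Finset.sum_const, nsmul_eq_mul]
    rw [h2]
    calc ∑ v, ((univ.filter fun j => v ∈ vs j).card : ℝ) * (ε * g v) ≤
          ∑ v, (B1 : ℝ) * (ε * g v) := by
          apply Finset.sum_le_sum
          intro v _
          exact mul_le_mul_of_nonneg_right (by exact_mod_cast hB v) (mul_nonneg hε (hg v))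
      _ = B1 * ε * ∑ v, g v := by
          rw [Finset.mul_sum]
          apply Finset.sum_congr rfl
          intro v _
          ring
      _ ≤ B1 * ε * S := mul_le_mul_of_nonneg_left hS (by positivity)
  have hY1 : ∀ y, ∑ j, ∑ v ∈ vs j, PF C T p (Y1 y j v) ≤
      B1 * ε * (200 * ((L : ℝ) + 1) ^ 2) := by
    intro y
    calc ∑ j, ∑ v ∈ vs j, PF C T p (Y1 y j v) ≤
        ∑ j, ∑ v ∈ vs j, ε * (C y.1.1).Pr T p {om | y.1.2.n y.2 ∈ nod L om v} := by
          apply Finset.sum_le_sum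
          intro j _
          apply Finset.sum_le_sum
          intro v _
          have h3 : Y1 y j v = {ω | cur ω ∈ {om : Cf C T | om ∈ A j ∧
              om y.1.1 ∈ {om | y.1.2.n y.2 ∈ nod L om v}}} := rfl
          rw [h3, PF_cur]
          exact pc_and h0 h1 (A j) y.1.1 _ (fun om => hA j y.1.1 om)
      _ ≤ _ := by
          refine hex (fun v => (C y.1.1).Pr T p {om | y.1.2.n y.2 ∈ nod L om v}) _
            (fun v => LLLA.Pr_nonneg (qq_prob h0 h1) _) ?_
          show ∑ v, (C y.1.1).Pr T p {om | y.1.2.n y.2 ∈ nod L om v} ≤ _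
          rw [sum_pr p (fun om v => y.1.2.n y.2 ∈ nod L om v)]
          exact e2 y.1.1 _
  have hY2 : ∀ y, ∑ j, ∑ v ∈ vs j, PF C T p (Y2 y j v) ≤
      B1 * ε * (400 * ((L : ℝ) + 1) ^ 3) := by
    intro y
    calc ∑ j, ∑ v ∈ vs j, PF C T p (Y2 y j v) ≤
        ∑ j, ∑ v ∈ vs j, ε * (C y.1).Pr T p {om | ∃ w : (C y.1).Wk T, om w = true ∧
          w.has y.2 ∧ w.meets (nod L om v)} := by
          apply Finset.sum_le_sum
          intro j _
          apply Finset.sum_le_sum
          intro v _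
          have h3 : Y2 y j v = {ω | cur ω ∈ {om : Cf C T | om ∈ A j ∧
              om y.1 ∈ {om | ∃ w : (C y.1).Wk T, om w = true ∧ w.has y.2 ∧
                w.meets (nod L om v)}}} := rfl
          rw [h3, PF_cur]
          exact pc_and h0 h1 (A j) y.1 _ (fun om => hA j y.1 om)
      _ ≤ _ := by
          refine hex (fun v => (C y.1).Pr T p {om | ∃ w : (C y.1).Wk T, om w = true ∧
            w.has y.2 ∧ w.meets (nod L om v)}) _
            (fun v => LLLA.Pr_nonneg (qq_prob h0 h1) _) ?_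
          show ∑ v, (C y.1).Pr T p {om | ∃ w : (C y.1).Wk T, om w = true ∧
            w.has y.2 ∧ w.meets (nod L om v)} ≤ _
          rw [sum_pr p (fun om v => ∃ w : (C y.1).Wk T, om w = true ∧ w.has y.2 ∧
              w.meets (nod L om v))]
          exact e3 y.1 _
  have hev : ∀ j : J, PF C T p {ω | cur ω ∈ A j ∧
      ∃ x, x ∈ R ∧ (∃ v ∈ vs j, x.2.meets (nod L (cur ω x.1) v)) ∧ ω x ≠ ρ x} ≤
      ∑ z ∈ vs j ×ˢ (Ip ×ˢ range (T + 1)), PF C T p (Y1 z.2 j z.1) +
      ∑ z ∈ vs j ×ˢ (univ : Finset (Fin n)).sigma U, PF C T p (Y2 z.2 j z.1) := by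
    intro j
    have h2 : {ω | cur ω ∈ A j ∧
        ∃ x, x ∈ R ∧ (∃ v ∈ vs j, x.2.meets (nod L (cur ω x.1) v)) ∧ ω x ≠ ρ x} ⊆
        {ω | ∃ z ∈ vs j ×ˢ (Ip ×ˢ range (T + 1)), ω ∈ Y1 z.2 j z.1} ∪
        {ω | ∃ z ∈ vs j ×ˢ (univ : Finset (Fin n)).sigma U, ω ∈ Y2 z.2 j z.1} := by
      rintro ω ⟨hA', x, hxR, ⟨v, hv, hm⟩, hne⟩
      by_cases hρ : ρ x = true
      · left
        obtain ⟨i, hi, hin⟩ := hm
        refine ⟨(v, (x, i)), ?_, hA', hin⟩
        rw [Finset.mem_product, Finset.mem_product, Finset.mem_range]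
        exact ⟨hv, hI x hxR hρ, Nat.lt_succ_of_le hi⟩
      · right
        have hρ' : ρ x = false := by simpa using hρ
        have hω : ω x = true := by
          by_contra h
          have : ω x = false := by simpa using h
          exact hne (by rw [this, hρ'])
        obtain ⟨i, hi, hin⟩ := hU x hxR hρ'
        refine ⟨(v, ⟨x.1, x.2.n i⟩), ?_, hA', x.2, hω, ⟨i, hi, rfl⟩, hm⟩
        rw [Finset.mem_product, Finset.mem_sigma]
        exact ⟨hv, Finset.mem_univ _, hin⟩
    refine (PF_mono h0 h1 h2).trans ((LLLA.Pr_union_le hq _ _).trans ?_)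
    exact add_le_add (LLLA.Pr_exists_le hq _ _) (LLLA.Pr_exists_le hq _ _)
  have sw : ∀ (ι : Type) (Y : Finset ι) (F : ι → J → V → ℝ),
      ∑ j, ∑ z ∈ vs j ×ˢ Y, F z.2 j z.1 = ∑ y ∈ Y, ∑ j, ∑ v ∈ vs j, F y j v := by
    intro ι Y F
    rw [Finset.sum_comm (s := Y)]
    apply Finset.sum_congr rfl
    intro j _
    rw [Finset.sum_product, Finset.sum_comm]
  calc _ ≤ ∑ j : J, (∑ z ∈ vs j ×ˢ (Ip ×ˢ range (T + 1)), PF C T p (Y1 z.2 j z.1) +
      ∑ z ∈ vs j ×ˢ (univ : Finset (Fin n)).sigma U, PF C T p (Y2 z.2 j z.1)) :=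
        Finset.sum_le_sum fun j _ => hev j
    _ = ∑ y ∈ Ip ×ˢ range (T + 1), ∑ j : J, ∑ v ∈ vs j, PF C T p (Y1 y j v) +
      ∑ y ∈ (univ : Finset (Fin n)).sigma U, ∑ j : J, ∑ v ∈ vs j, PF C T p (Y2 y j v) := by
        rw [Finset.sum_add_distrib,
          sw _ (Ip ×ˢ range (T + 1)) (fun y j v => PF C T p (Y1 y j v)),
          sw _ ((univ : Finset (Fin n)).sigma U) (fun y j v => PF C T p (Y2 y j v))]
    _ ≤ ∑ y ∈ Ip ×ˢ range (T + 1), B1 * ε * (200 * ((L : ℝ) + 1) ^ 2) +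
      ∑ y ∈ (univ : Finset (Fin n)).sigma U, B1 * ε * (400 * ((L : ℝ) + 1) ^ 3) :=
        add_le_add (Finset.sum_le_sum fun y _ => hY1 y) (Finset.sum_le_sum fun y _ => hY2 y)
    _ = _ := by
        rw [Finset.sum_const, Finset.sum_const, Finset.card_product, Finset.card_range,
          Finset.card_sigma, nsmul_eq_mul, nsmul_eq_mul]
        push_cast
        ring

/-- sum over the events of the third kind -/
theorem gtyp6 (h0 : 0 ≤ p) (h1 : p ≤ 1) (hε6 : 0 ≤ ε6)
    (hM : ∀ c u, (univ.filter fun h => u ∈ I c h).card ≤ M0)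
    (h6 : ∀ c h, (C c).Pr T p (X c h) ≤ ε6)
    (h6' : ∀ c h w, (C c).Pr T p {om | ins om w ∈ X c h} ≤ ε6)
    (hwk : ∀ c u, p * ((univ.filter fun w : (C c).Wk T => w.has u).card : ℝ) ≤ 1)
    (ρ : OM C T) (R Ip : Finset (WW C T)) (U : Fin n → Finset V)
    (hI : ∀ x ∈ R, ρ x = true → x ∈ Ip) (hU : ∀ x ∈ R, ρ x = false → x.2.meets (U x.1)) :
    ∑ j : Fin n × H, PF C T p {ω | cur ω j.1 ∈ X j.1 j.2 ∧
      ∃ x, x ∈ R ∧ (x.1 = j.1 ∧ x.2.meets (I x.1 j.2)) ∧ ω x ≠ ρ x} ≤
      Ip.card * ((T : ℝ) + 1) * (M0 * ε6) +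
      (∑ c, ((U c).card : ℝ)) * (((T : ℝ) + 1) * M0 * ε6) := by
  have hq := flat_prob' (C := C) (T := T) h0 h1
  have hcls : ∀ (c : Fin n) (Y : Set ((C c).Wk T → Bool)),
      PF C T p {ω | cur ω c ∈ Y} = (C c).Pr T p Y := by
    intro c Y
    have h2 : {ω : OM C T | cur ω c ∈ Y} = {ω | cur ω ∈ {om : Cf C T | om c ∈ Y}} := rfl
    rw [h2, PF_cur]
    unfold PC
    rw [LLLA.Pr_class (K := fun c => (C c).Wk T) (β := fun _ => Bool)
      (fun c => qq_prob h0 h1) c]
    rfl
  set F2 : Finset (WW C T) := univ.filter fun x => x.2.meets (U x.1) with hF2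
  have hev : ∀ j : Fin n × H, PF C T p {ω | cur ω j.1 ∈ X j.1 j.2 ∧
      ∃ x, x ∈ R ∧ (x.1 = j.1 ∧ x.2.meets (I x.1 j.2)) ∧ ω x ≠ ρ x} ≤
      (∑ y ∈ Ip ×ˢ range (T + 1),
        if y.1.1 = j.1 ∧ y.1.2.n y.2 ∈ I y.1.1 j.2 then ε6 else 0) +
      ∑ x ∈ F2, if x.1 = j.1 ∧ x.2.meets (I x.1 j.2) then p * ε6 else 0 := by
    rintro ⟨c, h⟩
    have h2 : {ω : OM C T | cur ω c ∈ X c h ∧
        ∃ x, x ∈ R ∧ (x.1 = c ∧ x.2.meets (I x.1 h)) ∧ ω x ≠ ρ x} ⊆
        {ω | ∃ y ∈ Ip ×ˢ range (T + 1), ω ∈ {ω : OM C T | (y.1.1 = c ∧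
          y.1.2.n y.2 ∈ I y.1.1 h) ∧ cur ω c ∈ X c h}} ∪
        {ω | ∃ x ∈ F2, ω ∈ {ω : OM C T | (x.1 = c ∧ x.2.meets (I x.1 h)) ∧
          cur ω c ∈ X c h ∧ ω x = true}} := by
      rintro ω ⟨hX, x, hxR, hm, hne⟩
      by_cases hρ : ρ x = true
      · left
        obtain ⟨hx1, i, hi, hin⟩ := hm
        refine ⟨(x, i), ?_, ⟨hx1, hin⟩, hX⟩
        rw [Finset.mem_product, Finset.mem_range]
        exact ⟨hI x hxR hρ, by omega⟩
      · right
        have hρ' : ρ x = false := by simpa using hρ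
        have hω : ω x = true := by
          by_contra h
          have : ω x = false := by simpa using h
          exact hne (by rw [this, hρ'])
        refine ⟨x, ?_, hm, hX, hω⟩
        rw [hF2, Finset.mem_filter]
        exact ⟨Finset.mem_univ _, hU x hxR hρ'⟩
    refine (PF_mono h0 h1 h2).trans ((LLLA.Pr_union_le hq _ _).trans ?_)
    refine add_le_add ((LLLA.Pr_exists_le hq _ _).trans ?_)
      ((LLLA.Pr_exists_le hq _ _).trans ?_)
    · apply Finset.sum_le_sum
      intro y _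
      by_cases hc : y.1.1 = c ∧ y.1.2.n y.2 ∈ I y.1.1 h
      · rw [if_pos hc]
        refine le_trans (PF_mono h0 h1 ?_) ((hcls c (X c h)).le.trans (h6 c h))
        rintro ω ⟨_, h3⟩
        exact h3
      · rw [if_neg hc]
        have h3 : {ω : OM C T | (y.1.1 = c ∧ y.1.2.n y.2 ∈ I y.1.1 h) ∧
            cur ω c ∈ X c h} = ∅ := by
          ext ω
          simp only [Set.mem_ofPred_eq, Set.mem_empty_iff_false, iff_false]
          rintro ⟨h4, _⟩
          exact hc h4
        rw [h3]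
        exact (PF_empty p).le
    · apply Finset.sum_le_sum
      intro x _
      by_cases hc : x.1 = c ∧ x.2.meets (I x.1 h)
      · rw [if_pos hc]
        rcases x with ⟨c', w⟩
        obtain ⟨hc1, _⟩ := hc
        simp only at hc1
        subst hc1
        have h4 : (C c').Pr T p {om | om ∈ X c' h ∧ om w = true} ≤ p * ε6 := by
          rw [pr_ins h0 h1]
          exact mul_le_mul_of_nonneg_left (h6' c' h w) h0
        refine le_trans (PF_mono h0 h1 ?_)
          ((hcls c' {om | om ∈ X c' h ∧ om w = true}).le.trans h4)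
        rintro ω ⟨_, h3, h5⟩
        exact ⟨h3, h5⟩
      · rw [if_neg hc]
        have h3 : {ω : OM C T | (x.1 = c ∧ x.2.meets (I x.1 h)) ∧
            cur ω c ∈ X c h ∧ ω x = true} = ∅ := by
          ext ω
          simp only [Set.mem_ofPred_eq, Set.mem_empty_iff_false, iff_false]
          rintro ⟨h4, _⟩
          exact hc h4
        rw [h3]
        exact (PF_empty p).le
  have hT0 : (0 : ℝ) ≤ (T : ℝ) + 1 := by positivity
  have hM0 : (0 : ℝ) ≤ M0 := Nat.cast_nonneg _
  -- walks meeting the sets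
  have hF2c : p * (F2.card : ℝ) ≤ ∑ c, ((U c).card : ℝ) := by
    have h2 : F2 ⊆ (univ : Finset (Fin n)).sigma fun c => (U c).biUnion fun u =>
        univ.filter fun w : (C c).Wk T => w.has u := by
      intro x hx
      obtain ⟨i, hi, hin⟩ := (Finset.mem_filter.1 hx).2
      rw [Finset.mem_sigma]
      refine ⟨Finset.mem_univ _, ?_⟩
      rw [Finset.mem_biUnion]
      refine ⟨x.2.n i, hin, ?_⟩
      rw [Finset.mem_filter]
      exact ⟨Finset.mem_univ _, i, hi, rfl⟩
    have h3 := Finset.card_le_card h2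
    rw [Finset.card_sigma] at h3
    calc p * (F2.card : ℝ) ≤ p * ((∑ c : Fin n, ((U c).biUnion fun u =>
        univ.filter fun w : (C c).Wk T => w.has u).card : ℕ) : ℝ) :=
          mul_le_mul_of_nonneg_left (by exact_mod_cast h3) h0
      _ = ∑ c : Fin n, p * (((U c).biUnion fun u =>
        univ.filter fun w : (C c).Wk T => w.has u).card : ℝ) := by
          rw [← Finset.mul_sum]; push_cast; rfl
      _ ≤ ∑ c, ((U c).card : ℝ) := by
          apply Finset.sum_le_sum
          intro c _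
          calc p * (((U c).biUnion fun u =>
              univ.filter fun w : (C c).Wk T => w.has u).card : ℝ) ≤
              p * ((∑ u ∈ U c, (univ.filter fun w : (C c).Wk T => w.has u).card : ℕ) : ℝ) :=
                mul_le_mul_of_nonneg_left (by exact_mod_cast Finset.card_biUnion_le) h0
            _ = ∑ u ∈ U c, p * ((univ.filter fun w : (C c).Wk T => w.has u).card : ℝ) := by
                rw [← Finset.mul_sum]; push_cast; rfl
            _ ≤ ∑ u ∈ U c, (1 : ℝ) := Finset.sum_le_sum fun u _ => hwk c u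
            _ = ((U c).card : ℝ) := by rw [Finset.sum_const, nsmul_eq_mul, mul_one]
  have hcount : ∀ x : WW C T, (((univ : Finset (Fin n × H)).filter fun j =>
      x.1 = j.1 ∧ x.2.meets (I x.1 j.2)).card : ℝ) ≤ ((T : ℝ) + 1) * M0 := by
    intro x
    have h2 : ((univ : Finset (Fin n × H)).filter fun j =>
        x.1 = j.1 ∧ x.2.meets (I x.1 j.2)).card ≤
        ((range (T + 1)).biUnion fun i => univ.filter fun h => x.2.n i ∈ I x.1 h).card := by
      apply Finset.card_le_card_of_injOn (fun j => j.2)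
      · intro j hj
        simp only [Finset.coe_filter, Finset.mem_univ, true_and, Set.mem_ofPred_eq] at hj
        obtain ⟨_, i, hi, hin⟩ := hj
        show j.2 ∈ ((range (T + 1)).biUnion fun i => univ.filter fun h => x.2.n i ∈ I x.1 h)
        rw [Finset.mem_biUnion]
        refine ⟨i, Finset.mem_range.2 (by omega), ?_⟩
        rw [Finset.mem_filter]
        exact ⟨Finset.mem_univ _, hin⟩
      · intro j hj j' hj' h
        simp only [Finset.coe_filter, Finset.mem_univ, true_and, Set.mem_ofPred_eq] at hj hj'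
        exact Prod.ext (hj.1.symm.trans hj'.1) h
    have h3 : ((range (T + 1)).biUnion fun i =>
        univ.filter fun h => x.2.n i ∈ I x.1 h).card ≤ (range (T + 1)).card * M0 :=
      Finset.card_biUnion_le_card_mul _ _ _ fun i _ => hM _ _
    rw [Finset.card_range] at h3
    exact_mod_cast h2.trans h3
  have k1 : ∑ j : Fin n × H, (∑ y ∈ Ip ×ˢ range (T + 1),
        if y.1.1 = j.1 ∧ y.1.2.n y.2 ∈ I y.1.1 j.2 then ε6 else 0) ≤
      Ip.card * ((T : ℝ) + 1) * (M0 * ε6) := by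
    rw [Finset.sum_comm]
    calc _ ≤ ∑ y ∈ Ip ×ˢ range (T + 1), M0 * ε6 := by
          apply Finset.sum_le_sum
          intro y _
          rw [← Finset.sum_filter, Finset.sum_const, nsmul_eq_mul]
          apply mul_le_mul_of_nonneg_right _ hε6
          have h2 : ((univ : Finset (Fin n × H)).filter fun j =>
              y.1.1 = j.1 ∧ y.1.2.n y.2 ∈ I y.1.1 j.2).card ≤
              (univ.filter fun h => y.1.2.n y.2 ∈ I y.1.1 h).card := by
            apply Finset.card_le_card_of_injOn (fun j => j.2)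
            · intro j hj
              simp only [Finset.coe_filter, Finset.mem_univ, true_and, Set.mem_ofPred_eq] at hj ⊢
              exact hj.2
            · intro j hj j' hj' h
              simp only [Finset.coe_filter, Finset.mem_univ, true_and,
                Set.mem_ofPred_eq] at hj hj'
              exact Prod.ext (hj.1.symm.trans hj'.1) h
          exact_mod_cast h2.trans (hM _ _)
      _ = _ := by
          rw [Finset.sum_const, Finset.card_product, Finset.card_range, nsmul_eq_mul]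
          push_cast
          ring
  have k2 : ∑ j : Fin n × H, (∑ x ∈ F2,
        if x.1 = j.1 ∧ x.2.meets (I x.1 j.2) then p * ε6 else 0) ≤
      (∑ c, ((U c).card : ℝ)) * (((T : ℝ) + 1) * M0 * ε6) := by
    rw [Finset.sum_comm]
    calc _ ≤ ∑ x ∈ F2, ((T : ℝ) + 1) * M0 * (p * ε6) := by
          apply Finset.sum_le_sum
          intro x _
          rw [← Finset.sum_filter, Finset.sum_const, nsmul_eq_mul]
          exact mul_le_mul_of_nonneg_right (hcount x) (mul_nonneg h0 hε6)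
      _ = p * (F2.card : ℝ) * (((T : ℝ) + 1) * M0 * ε6) := by
          rw [Finset.sum_const, nsmul_eq_mul]
          ring
      _ ≤ _ := mul_le_mul_of_nonneg_right hF2c (by positivity)
  calc _ ≤ ∑ j : Fin n × H, ((∑ y ∈ Ip ×ˢ range (T + 1),
        if y.1.1 = j.1 ∧ y.1.2.n y.2 ∈ I y.1.1 j.2 then ε6 else 0) +
      ∑ x ∈ F2, if x.1 = j.1 ∧ x.2.meets (I x.1 j.2) then p * ε6 else 0) :=
        Finset.sum_le_sum fun j _ => hev j
    _ = _ := Finset.sum_add_distrib
    _ ≤ _ := add_le_add k1 k2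

/-! ## the events -/

/-- index of the events -/
abbrev VG : Type := J ⊕ ((Σ c, Finset ((C c).Wk T)) ⊕ (Fin n × H))

/-- the bad events -/
def Ag : VG C T J H → Set (OM C T)
  | .inl j => {ω | cur ω ∈ A j}
  | .inr (.inl y) => {ω | y.2.card = K0 ∧ (∃ u, ∀ w ∈ y.2, w.has u) ∧
      ∀ w ∈ y.2, ω ⟨y.1, w⟩ = true}
  | .inr (.inr j) => {ω | cur ω j.1 ∈ X j.1 j.2}

/-- the reading sets -/
def Rg : VG C T J H → OM C T → Finset (WW C T)
  | .inl j => fun ω => univ.filter fun x => ∃ v ∈ vs j, x.2.meets (nod L (cur ω x.1) v)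
  | .inr (.inl y) => fun _ => y.2.map ⟨Sigma.mk y.1, sigma_mk_injective⟩
  | .inr (.inr j) => fun _ => univ.filter fun x => x.1 = j.1 ∧ x.2.meets (I x.1 j.2)

theorem stop_g (hN : ∀ c, Nds (C c) T L)
    (hag : ∀ j om om', (∀ v ∈ vs j, agr L om om' v) → (om' ∈ A j ↔ om ∈ A j))
    (hX : ∀ c h om om', (∀ w : (C c).Wk T, w.meets (I c h) → om' w = om w) →
        (om' ∈ X c h ↔ om ∈ X c h)) (j : VG C T J H) :
    LLLA.IsStop (Rg C T J vs H L I j) (Ag C T J A H X K0 j) := by
  rcases j with j | ⟨y | ⟨c, h⟩⟩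
  · refine ⟨?_, ?_⟩
    · intro ω η hh
      show (univ.filter fun x : WW C T => ∃ v ∈ vs j, x.2.meets (nod L (cur η x.1) v)) =
        univ.filter fun x : WW C T => ∃ v ∈ vs j, x.2.meets (nod L (cur ω x.1) v)
      have h2 : ∀ v ∈ vs j, ∀ c, nod L (cur η c) v = nod L (cur ω c) v := fun v hv c =>
        (hN c).stop (cur ω c) (cur η c) v fun w hw => hh ⟨c, w⟩ (by
          show (⟨c, w⟩ : WW C T) ∈ univ.filter fun x : WW C T =>
            ∃ v ∈ vs j, x.2.meets (nod L (cur ω x.1) v)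
          rw [Finset.mem_filter]
          exact ⟨Finset.mem_univ _, v, hv, hw⟩)
      ext x
      simp only [Finset.mem_filter, Finset.mem_univ, true_and]
      constructor
      · rintro ⟨v, hv, h3⟩
        exact ⟨v, hv, by rw [← h2 v hv]; exact h3⟩
      · rintro ⟨v, hv, h3⟩
        exact ⟨v, hv, by rw [h2 v hv]; exact h3⟩
    · intro ω η hh
      exact hag j (cur ω) (cur η) fun v hv c w hw => hh ⟨c, w⟩ (by
          show (⟨c, w⟩ : WW C T) ∈ univ.filter fun x : WW C T =>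
            ∃ v ∈ vs j, x.2.meets (nod L (cur ω x.1) v)
          rw [Finset.mem_filter]
          exact ⟨Finset.mem_univ _, v, hv, hw⟩)
  · refine ⟨fun _ _ _ => rfl, ?_⟩
    intro ω η hh
    show (y.2.card = K0 ∧ (∃ u, ∀ w ∈ y.2, w.has u) ∧ ∀ w ∈ y.2, η ⟨y.1, w⟩ = true) ↔
      (y.2.card = K0 ∧ (∃ u, ∀ w ∈ y.2, w.has u) ∧ ∀ w ∈ y.2, ω ⟨y.1, w⟩ = true)
    have h2 : ∀ w ∈ y.2, η ⟨y.1, w⟩ = ω ⟨y.1, w⟩ := fun w hw => hh ⟨y.1, w⟩ (by
      show (⟨y.1, w⟩ : WW C T) ∈ y.2.map ⟨Sigma.mk y.1, sigma_mk_injective⟩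
      rw [Finset.mem_map]
      exact ⟨w, hw, rfl⟩)
    constructor
    · rintro ⟨h3, h4, h5⟩
      exact ⟨h3, h4, fun w hw => by rw [← h2 w hw]; exact h5 w hw⟩
    · rintro ⟨h3, h4, h5⟩
      exact ⟨h3, h4, fun w hw => by rw [h2 w hw]; exact h5 w hw⟩
  · refine ⟨fun _ _ _ => rfl, ?_⟩
    intro ω η hh
    exact hX c h (cur ω c) (cur η c) fun w hw => hh ⟨c, w⟩ (by
      show (⟨c, w⟩ : WW C T) ∈ univ.filter fun x : WW C T => x.1 = c ∧ x.2.meets (I x.1 h)
      rw [Finset.mem_filter]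
      exact ⟨Finset.mem_univ _, rfl, hw⟩)

end sums

/-- present walks through the nodes of a set -/
theorem card_pres (ρ : OM C T) (S : Finset (WW C T)) (U : Fin n → Finset V) (K0 : ℕ)
    (hS : ∀ x ∈ S, ρ x = true ∧ x.2.meets (U x.1))
    (hm : ∀ c, ∀ u ∈ U c, mult (cur ρ c) u < K0) :
    (S.card : ℝ) ≤ (∑ c, ((U c).card : ℝ)) * K0 := by
  have h2 : S ⊆ (univ : Finset (Fin n)).sigma fun c => (U c).biUnion fun u =>
      univ.filter fun w : (C c).Wk T => cur ρ c w = true ∧ w.has u := by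
    intro x hx
    obtain ⟨hx2, i, hi, hin⟩ := hS x hx
    rw [Finset.mem_sigma]
    refine ⟨Finset.mem_univ _, ?_⟩
    rw [Finset.mem_biUnion]
    refine ⟨x.2.n i, hin, ?_⟩
    rw [Finset.mem_filter]
    exact ⟨Finset.mem_univ _, hx2, i, hi, rfl⟩
  have h3 := Finset.card_le_card h2
  rw [Finset.card_sigma] at h3
  have h4 : ∀ c : Fin n, (((U c).biUnion fun u =>
      univ.filter fun w : (C c).Wk T => cur ρ c w = true ∧ w.has u).card : ℝ) ≤
      ((U c).card : ℝ) * K0 := by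
    intro c
    have h5 := Finset.card_biUnion_le_card_mul (U c) (fun u =>
      univ.filter fun w : (C c).Wk T => cur ρ c w = true ∧ w.has u) K0
      (fun u hu => (hm c u hu).le)
    exact_mod_cast h5
  calc (S.card : ℝ) ≤ ((∑ c : Fin n, ((U c).biUnion fun u =>
        univ.filter fun w : (C c).Wk T => cur ρ c w = true ∧ w.has u).card : ℕ) : ℝ) := by
        exact_mod_cast h3
    _ = ∑ c : Fin n, (((U c).biUnion fun u =>
        univ.filter fun w : (C c).Wk T => cur ρ c w = true ∧ w.has u).card : ℝ) := by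
        push_cast; rfl
    _ ≤ ∑ c : Fin n, ((U c).card : ℝ) * K0 := Finset.sum_le_sum fun c _ => h4 c
    _ = _ := by rw [Finset.sum_mul]

theorem sumg (nds : NODStmt) (wpc : WPCStmt) (rct : RCTStmt) (mk0 : MK0Stmt) : SUMGStmt := by
  intro V _ n C d T p z r L K0 hn hPar hL hTL hK0 J _ A vs B1 ε hB1 hε hε4 hvs hvm hag hgood hA
    H _ X I M0 ε6 hε6 hε64 hIc hIm hX hXg h6 h6' hnum
  have h0 : 0 ≤ p := (hPar ⟨0, hn⟩).p0.le
  have hph : p ≤ 1 / 2 := (hPar ⟨0, hn⟩).ph
  have h1 : p ≤ 1 := by linarith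
  have hr0 : 0 ≤ r := by
    have h2 := (hPar ⟨0, hn⟩).zr
    rw [← h2]
    have h3 := (hPar ⟨0, hn⟩).z0
    positivity
  have hr1 : 2 * r ≤ 1 := (hPar ⟨0, hn⟩).r1
  have hq := flat_prob' (C := C) (T := T) h0 h1
  have hN : ∀ c, Nds (C c) T L := fun c => nds V (C c) d T L (hPar c).ok hL
  have e2 : ∀ c u, (C c).E T p
      (fun om => ((univ.filter fun v => u ∈ nod L om v).card : ℝ)) ≤
      200 * ((L : ℝ) + 1) ^ 2 := fun c u => (rct V (C c) d T p z r L (hPar c) hL hTL u).1
  have e3 : ∀ c u, (C c).E T p (fun om => ((univ.filter fun v => ∃ w : (C c).Wk T,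
      om w = true ∧ w.has u ∧ w.meets (nod L om v)).card : ℝ)) ≤ 400 * ((L : ℝ) + 1) ^ 3 :=
    fun c u => (rct V (C c) d T p z r L (hPar c) hL hTL u).2.2
  have m5 : ∀ c u0, (∑ _S ∈ (univ : Finset (Finset ((C c).Wk T))).filter
      (fun S => S.card = K0 ∧ (∃ u, ∀ w ∈ S, w.has u) ∧ ∃ w ∈ S, w.has u0), p ^ K0) ≤
      ((T : ℝ) + 1) * (2 * r) ^ K0 := fun c u0 =>
    (mk0 V (C c) d T p z r K0 (hPar c) (by omega)).2 u0
  have hwk : ∀ c u, p * ((univ.filter fun w : (C c).Wk T => w.has u).card : ℝ) ≤ 1 :=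
    fun c u => ((wpc V (C c) d T p z r (hPar c)).2.1 u).trans hr1
  have hNB1 : 1 ≤ NB L K0 := by
    unfold NB
    have h2 : (0 : ℝ) ≤ L := Nat.cast_nonneg L
    have h3 : (0 : ℝ) ≤ K0 := Nat.cast_nonneg K0
    have h4 : (1 : ℝ) ≤ 4 * L + 5 := by linarith
    have h5 : (1 : ℝ) ≤ 1 + K0 * (4 * L + 5) + K0 := by
      have : (0 : ℝ) ≤ K0 * (4 * L + 5) := by positivity
      linarith
    nlinarith
  have hn1 : (1 : ℝ) ≤ n := by exact_mod_cast hn
  have hB11 : (1 : ℝ) ≤ B1 := by exact_mod_cast hB1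
  set G1 : ℝ := B1 * ε * (200 * ((L : ℝ) + 1) ^ 2) + M0 * ε6 with hG1
  set G2 : ℝ := B1 * ε * (400 * ((L : ℝ) + 1) ^ 3) +
    ((T : ℝ) + 1) * (2 * r) ^ K0 + ((T : ℝ) + 1) * M0 * ε6 with hG2
  have hG10 : 0 ≤ G1 := by positivity
  have hG20 : 0 ≤ G2 := by positivity
  have hT0 : (0 : ℝ) ≤ (T : ℝ) + 1 := by positivity
  have hM0 : (0 : ℝ) ≤ M0 := Nat.cast_nonneg _
  have hK00 : (0 : ℝ) ≤ K0 := Nat.cast_nonneg _
  have hBN : (1 : ℝ) ≤ B1 * n * NB L K0 := by
    have h2 : (1 : ℝ) ≤ B1 * n := by nlinarith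
    nlinarith
  -- the bound for the sum over the neighbours
  have main : ∀ (ρ : OM C T) (R Ip : Finset (WW C T)) (U : Fin n → Finset V) (b a0 : ℝ),
      (∀ x ∈ R, ρ x = true → x ∈ Ip) → (∀ x ∈ R, ρ x = false → x.2.meets (U x.1)) →
      (Ip.card : ℝ) ≤ a0 * K0 → (∑ c, ((U c).card : ℝ)) ≤ b → a0 ≤ B1 * n * NB L K0 + M0 →
      b ≤ B1 * n * NB L K0 + M0 →
      ∑ j' : VG C T J H, LLLA.Pr (W := WW C T) (α := fun _ => Bool)
        (LLLA.flat (K := fun c => (C c).Wk T) (β := fun _ => Bool) fun _ => qq p)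
        {ω | ω ∈ Ag C T J A H X K0 j' ∧ ∃ w, w ∈ R ∧ w ∈ Rg C T J vs H L I j' ω ∧
          ω w ≠ ρ w} ≤ 1 / 4 := by
    intro ρ R Ip U b a0 hI hU ha hb hab hbb
    have t1 := gtyp1 C T J A vs B1 p ε L h0 h1 hε hvm hA e2 e3 ρ R Ip U hI hU
    have t5 := typ5 C T p r K0 h0 h1 m5 ρ R U hU
    have t6 := gtyp6 C T H X p M0 I ε6 h0 h1 hε6 hIm h6 h6' hwk ρ R Ip U hI hU
    rw [Fintype.sum_sum_type, Fintype.sum_sum_type]
    have hIp0 : (0 : ℝ) ≤ Ip.card := Nat.cast_nonneg _
    have hU0 : 0 ≤ ∑ c, ((U c).card : ℝ) := Finset.sum_nonneg fun c _ => Nat.cast_nonneg _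
    have s1 : ∑ j : J, LLLA.Pr (W := WW C T) (α := fun _ => Bool)
        (LLLA.flat (K := fun c => (C c).Wk T) (β := fun _ => Bool) fun _ => qq p)
        {ω | ω ∈ Ag C T J A H X K0 (.inl j) ∧
          ∃ w, w ∈ R ∧ w ∈ Rg C T J vs H L I (.inl j) ω ∧ ω w ≠ ρ w} ≤
        Ip.card * ((T : ℝ) + 1) * (B1 * ε * (200 * ((L : ℝ) + 1) ^ 2)) +
        (∑ c, ((U c).card : ℝ)) * (B1 * ε * (400 * ((L : ℝ) + 1) ^ 3)) := by
      refine le_trans (Finset.sum_le_sum fun j _ => ?_) t1
      apply PF_mono h0 h1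
      rintro ω ⟨hA', w, hw1, hw2, hw3⟩
      refine ⟨hA', w, hw1, ?_, hw3⟩
      have hw2' : w ∈ univ.filter fun x : WW C T =>
        ∃ v ∈ vs j, x.2.meets (nod L (cur ω x.1) v) := hw2
      exact (Finset.mem_filter.1 hw2').2
    have s5 : ∑ y : (Σ c, Finset ((C c).Wk T)), LLLA.Pr (W := WW C T) (α := fun _ => Bool)
        (LLLA.flat (K := fun c => (C c).Wk T) (β := fun _ => Bool) fun _ => qq p)
        {ω | ω ∈ Ag C T J A H X K0 (.inr (.inl y)) ∧
          ∃ w, w ∈ R ∧ w ∈ Rg C T J vs H L I (.inr (.inl y)) ω ∧ ω w ≠ ρ w} ≤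
        (∑ c, ((U c).card : ℝ)) * (((T : ℝ) + 1) * (2 * r) ^ K0) := t5
    have s6 : ∑ j : Fin n × H, LLLA.Pr (W := WW C T) (α := fun _ => Bool)
        (LLLA.flat (K := fun c => (C c).Wk T) (β := fun _ => Bool) fun _ => qq p)
        {ω | ω ∈ Ag C T J A H X K0 (.inr (.inr j)) ∧
          ∃ w, w ∈ R ∧ w ∈ Rg C T J vs H L I (.inr (.inr j)) ω ∧ ω w ≠ ρ w} ≤
        Ip.card * ((T : ℝ) + 1) * (M0 * ε6) +
        (∑ c, ((U c).card : ℝ)) * (((T : ℝ) + 1) * M0 * ε6) := by
      refine le_trans (Finset.sum_le_sum fun j _ => ?_) t6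
      apply PF_mono h0 h1
      rintro ω ⟨hA', w, hw1, hw2, hw3⟩
      refine ⟨hA', w, hw1, ?_, hw3⟩
      have hw2' : w ∈ univ.filter fun x : WW C T => x.1 = j.1 ∧ x.2.meets (I x.1 j.2) := hw2
      exact (Finset.mem_filter.1 hw2').2
    have r1 : (Ip.card : ℝ) * (((T : ℝ) + 1) * G1) ≤
        (B1 * n * NB L K0 + M0) * K0 * (((T : ℝ) + 1) * G1) := by
      apply mul_le_mul_of_nonneg_right _ (by positivity)
      exact ha.trans (mul_le_mul_of_nonneg_right hab hK00)
    have r2 : (∑ c, ((U c).card : ℝ)) * G2 ≤ (B1 * n * NB L K0 + M0) * G2 :=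
      mul_le_mul_of_nonneg_right (hb.trans hbb) hG20
    calc _ ≤ (Ip.card * ((T : ℝ) + 1) * (B1 * ε * (200 * ((L : ℝ) + 1) ^ 2)) +
          (∑ c, ((U c).card : ℝ)) * (B1 * ε * (400 * ((L : ℝ) + 1) ^ 3))) +
          ((∑ c, ((U c).card : ℝ)) * (((T : ℝ) + 1) * (2 * r) ^ K0) +
          (Ip.card * ((T : ℝ) + 1) * (M0 * ε6) +
          (∑ c, ((U c).card : ℝ)) * (((T : ℝ) + 1) * M0 * ε6))) :=
            add_le_add s1 (add_le_add s5 s6)
      _ = (Ip.card : ℝ) * (((T : ℝ) + 1) * G1) + (∑ c, ((U c).card : ℝ)) * G2 := by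
          rw [hG1, hG2]; ring
      _ ≤ (B1 * n * NB L K0 + M0) * K0 * (((T : ℝ) + 1) * G1) +
          (B1 * n * NB L K0 + M0) * G2 := add_le_add r1 r2
      _ = (B1 * n * NB L K0 + M0) * K0 * ((T : ℝ) + 1) * G1 +
          (B1 * n * NB L K0 + M0) * G2 := by ring
      _ ≤ 1 / 4 := hnum
  -- apply the local lemma
  have hres := LLLA.stop_lll (W := WW C T) (α := fun _ => Bool) (VV := VG C T J H) hq
    (Ag C T J A H X K0) (Rg C T J vs H L I)
    (stop_g C T J A vs H X L K0 I hN hag hX) ?_ ?_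
  · obtain ⟨ω, hω⟩ := hres
    refine ⟨cur ω, ?_, ?_, ?_⟩
    · intro j hcon
      exact hω (.inl j) hcon
    · intro c h hcon
      exact hω (.inr (.inr (c, h))) hcon
    · intro c u
      by_contra hcon
      push Not at hcon
      obtain ⟨S, hS1, hS2⟩ := Finset.exists_subset_card_eq hcon
      apply hω (.inr (.inl ⟨c, S⟩))
      refine ⟨hS2, ⟨u, fun w hw => ?_⟩, fun w hw => ?_⟩
      · exact (Finset.mem_filter.1 (hS1 hw)).2.2
      · exact (Finset.mem_filter.1 (hS1 hw)).2.1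
  · -- probabilities
    rintro (j | ⟨y | ⟨c, h⟩⟩)
    · have h2 : LLLA.Pr (W := WW C T) (α := fun _ => Bool)
          (LLLA.flat (K := fun c => (C c).Wk T) (β := fun _ => Bool) fun _ => qq p)
          (Ag C T J A H X K0 (.inl j)) = PC C T p (A j) := PF_cur p (A j)
      rw [h2]
      refine le_trans ?_ hε4
      unfold PC
      apply LLLA.Pr_le_of_cond (LLLA.cwt_prob (K := fun c => (C c).Wk T)
        (β := fun _ => Bool) (q := fun _ => qq p) (fun c => qq_prob h0 h1)) {⟨0, hn⟩}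
      intro om
      exact hA j ⟨0, hn⟩ om
    · by_cases hy : y.2.card = K0
      · have h2 : LLLA.Pr (W := WW C T) (α := fun _ => Bool)
            (LLLA.flat (K := fun c => (C c).Wk T) (β := fun _ => Bool) fun _ => qq p)
            (Ag C T J A H X K0 (.inr (.inl y))) ≤ p ^ K0 := by
          rw [← hy, ← PF_all h0 h1 y.1 y.2]
          apply PF_mono h0 h1
          rintro ω ⟨_, _, h3⟩
          exact h3
        refine h2.trans ?_
        calc p ^ K0 ≤ (1 / 2) ^ K0 := pow_le_pow_left₀ h0 hph K0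
          _ ≤ (1 / 2) ^ 2 := pow_le_pow_of_le_one (by norm_num) (by norm_num) hK0
          _ = 1 / 4 := by norm_num
      · have h2 : Ag C T J A H X K0 (.inr (.inl y)) = ∅ := by
          ext ω
          constructor
          · rintro ⟨h3, _⟩
            exact absurd h3 hy
          · intro h3
            exact absurd h3 (Set.notMem_empty _)
        rw [h2]
        have h3 := PF_empty (C := C) (T := T) p
        unfold PF at h3
        rw [h3]
        norm_num
    · have h2 : LLLA.Pr (W := WW C T) (α := fun _ => Bool)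
          (LLLA.flat (K := fun c => (C c).Wk T) (β := fun _ => Bool) fun _ => qq p)
          (Ag C T J A H X K0 (.inr (.inr (c, h)))) = PC C T p {om | om c ∈ X c h} :=
        PF_cur p {om : Cf C T | om c ∈ X c h}
      rw [h2]
      unfold PC
      rw [LLLA.Pr_class (K := fun c => (C c).Wk T) (β := fun _ => Bool)
        (fun c => qq_prob h0 h1) c]
      exact (h6 c h).trans hε64
  · -- sums over the neighbours
    rintro (j | ⟨y | ⟨c, h⟩⟩) ρ hρ
    · have hg := hgood j (cur ρ) hρ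
      have hcard : ∀ c, ((((vs j).biUnion fun v => nod L (cur ρ c) v).card : ℕ) : ℝ) ≤
          B1 * NB L K0 := by
        intro c
        have h2 : ∀ v ∈ vs j, ((nod L (cur ρ c) v).card : ℝ) ≤ NB L K0 := by
          intro v hv
          have h3 := (hN c).card (cur ρ c) v K0 (hg v hv c)
          unfold NB
          exact_mod_cast h3
        calc ((((vs j).biUnion fun v => nod L (cur ρ c) v).card : ℕ) : ℝ) ≤
            ((∑ v ∈ vs j, (nod L (cur ρ c) v).card : ℕ) : ℝ) := by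
              exact_mod_cast Finset.card_biUnion_le
          _ = ∑ v ∈ vs j, ((nod L (cur ρ c) v).card : ℝ) := by push_cast; rfl
          _ ≤ ∑ _v ∈ vs j, NB L K0 := Finset.sum_le_sum h2
          _ = ((vs j).card : ℝ) * NB L K0 := by rw [Finset.sum_const, nsmul_eq_mul]
          _ ≤ B1 * NB L K0 := by
              apply mul_le_mul_of_nonneg_right _ (by linarith)
              exact_mod_cast hvs j
      have hsum : ∑ c, ((((vs j).biUnion fun v => nod L (cur ρ c) v).card : ℕ) : ℝ) ≤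
          B1 * n * NB L K0 := by
        calc ∑ c, ((((vs j).biUnion fun v => nod L (cur ρ c) v).card : ℕ) : ℝ) ≤
            ∑ _c : Fin n, (B1 : ℝ) * NB L K0 := Finset.sum_le_sum fun c _ => hcard c
          _ = B1 * n * NB L K0 := by
            rw [Finset.sum_const, Finset.card_univ, Fintype.card_fin, nsmul_eq_mul]
            ring
      have hRm : ∀ x ∈ Rg C T J vs H L I (.inl j) ρ,
          x.2.meets ((vs j).biUnion fun v => nod L (cur ρ x.1) v) := by
        intro x hx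
        have hx' : x ∈ univ.filter fun x : WW C T =>
          ∃ v ∈ vs j, x.2.meets (nod L (cur ρ x.1) v) := hx
        obtain ⟨v, hv, i, hi, hin⟩ := (Finset.mem_filter.1 hx').2
        refine ⟨i, hi, ?_⟩
        rw [Finset.mem_biUnion]
        exact ⟨v, hv, hin⟩
      refine main ρ (Rg C T J vs H L I (.inl j) ρ)
        ((Rg C T J vs H L I (.inl j) ρ).filter fun x => ρ x = true)
        (fun c => (vs j).biUnion fun v => nod L (cur ρ c) v) (B1 * n * NB L K0)
        (B1 * n * NB L K0) ?_ ?_ ?_ hsum (by linarith) (by linarith)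
      · intro x hx hρx
        exact Finset.mem_filter.2 ⟨hx, hρx⟩
      · intro x hx _
        exact hRm x hx
      · refine (card_pres ρ _ (fun c => (vs j).biUnion fun v => nod L (cur ρ c) v) K0 ?_
          ?_).trans (mul_le_mul_of_nonneg_right hsum hK00)
        · intro x hx
          obtain ⟨hx1, hx2⟩ := Finset.mem_filter.1 hx
          exact ⟨hx2, hRm x hx1⟩
        · intro c u hu
          rw [Finset.mem_biUnion] at hu
          obtain ⟨v, hv, hu'⟩ := hu
          exact hg v hv c u hu'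
    · refine main ρ (Rg C T J vs H L I (.inr (.inl y)) ρ) (Rg C T J vs H L I (.inr (.inl y)) ρ)
        (fun _ => ∅) 0 1 (fun x hx _ => hx) ?_ ?_ ?_ (by linarith) (by linarith)
      · intro x hx hρx
        exfalso
        have hx' : x ∈ (y.2.map ⟨Sigma.mk y.1, sigma_mk_injective⟩ : Finset (WW C T)) := hx
        rw [Finset.mem_map] at hx'
        obtain ⟨w, hw, rfl⟩ := hx'
        have h2 := hρ.2.2 w hw
        have h3 : ρ ⟨y.1, w⟩ = false := hρx
        rw [h2] at h3
        cases h3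
      · show (((y.2.map ⟨Sigma.mk y.1, sigma_mk_injective⟩ : Finset (WW C T))).card : ℝ) ≤
          1 * K0
        rw [Finset.card_map, one_mul]
        exact_mod_cast hρ.1.le
      · simp
    · have hsumc : ∑ c' : Fin n, (((if c' = c then I c' h else ∅ : Finset V)).card : ℝ) ≤ M0 := by
        have h2 : ∑ c' : Fin n, (((if c' = c then I c' h else ∅ : Finset V)).card : ℝ) =
            ((I c h).card : ℝ) := by
          rw [Finset.sum_eq_single c]
          · rw [if_pos rfl]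
          · intro c' _ hne
            rw [if_neg hne]
            simp
          · intro h
            exact absurd (Finset.mem_univ c) h
        rw [h2]
        exact_mod_cast hIc c h
      have hRm : ∀ x ∈ Rg C T J vs H L I (.inr (.inr (c, h))) ρ,
          x.2.meets (if x.1 = c then I x.1 h else ∅) := by
        intro x hx
        have hx' : x ∈ univ.filter fun x : WW C T => x.1 = c ∧ x.2.meets (I x.1 h) := hx
        obtain ⟨_, hx1, hx2⟩ := Finset.mem_filter.1 hx'
        rw [if_pos hx1]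
        exact hx2
      refine main ρ (Rg C T J vs H L I (.inr (.inr (c, h))) ρ)
        ((Rg C T J vs H L I (.inr (.inr (c, h))) ρ).filter fun x => ρ x = true)
        (fun c' => if c' = c then I c' h else ∅) M0 M0 ?_ ?_ ?_ hsumc (by linarith) (by linarith)
      · intro x hx hρx
        exact Finset.mem_filter.2 ⟨hx, hρx⟩
      · intro x hx _
        exact hRm x hx
      · refine (card_pres ρ _ (fun c' => if c' = c then I c' h else ∅) K0 ?_
          ?_).trans (mul_le_mul_of_nonneg_right hsumc hK00)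
        · intro x hx
          obtain ⟨hx1, hx2⟩ := Finset.mem_filter.1 hx
          exact ⟨hx2, hRm x hx1⟩
        · intro c' u hu
          by_cases hc : c' = c
          · rw [if_pos hc] at hu
            subst hc
            exact hXg c' h (cur ρ c') hρ u hu
          · rw [if_neg hc] at hu
            exact absurd hu (Finset.notMem_empty u)

end

end Pool.Agent.C4K.H82
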