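import Pool.Agent.Helper82_C4K.Sw2

/-!
# WALKSM, part 3: the assembly
-/

set_option autoImplicit false
set_option linter.unusedSectionVars false

namespace Pool.Agent.C4K.H82

open Finset Cl
open scoped Classical
open Pool.Agent.C4K.H7 (St1 evC_card vsJ evJ oneX oneI card_vs card_filter_sum card_pre card_spt
  base lin gd gd_agr base_agr lin_agr base_prB lin_pr tau_le mult_agr mult_rd mult_ins F1 F2
  PC_mono evC_congr Pr_union Pr_mono Pr_empty gco ind ind_nonneg ind_le gco_nonneg gco_le
  gco_sum gco_ne gco_card2 coin_loss)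

noncomputable section

variable {V : Type} [Fintype V]

/-- the new numbers -/
def NUSStmt : Prop := ∀ B : ℕ, ∃ k0 : ℝ, ∀ (k : ℝ) (n : ℕ), k0 ≤ k → (n : ℝ) ≤ k →
  NuS B k n ∧ 4 ≤ k ∧ (kS k : ℝ) + 2 * kM B ≤ k ^ (0.99 : ℝ) ∧
    k * kb k + k * kX k ≤ k ^ (0.999 : ℝ)

/-- the extended coefficients -/
def ax {U : Type} {n : ℕ} (k : ℝ) (N : V → V → Prop) (a : U → Fin n → V → ℝ) :
    U ⊕ (Fin n × V) → Fin n → V → ℝ
  | .inl u => a u
  | .inr x => fun c y => if c = x.1 ∧ N x.2 y then 1 / k else 0

lemma ax_lin {U : Type} [Fintype U] {n B : ℕ} {k : ℝ} (hk : 4 ≤ k) (hn : (n : ℝ) ≤ k)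
    {N : V → V → Prop} (hN : C4F N)
    (hdeg : ∀ v, ((univ.filter fun y => N v y).card : ℝ) ≤ 3 * k)
    {a : U → Fin n → V → ℝ} (ha : LinH k B U a) :
    LinH k (B + 3) (U ⊕ (Fin n × V)) (ax k N a) := by
  have hk0 : 0 < k := by linarith
  have hkB : 1 ≤ k ^ (B : ℝ) := Real.one_le_rpow (by linarith) (Nat.cast_nonneg B)
  have hkB3 : k ^ (((B + 3 : ℕ)) : ℝ) = k ^ (B : ℝ) * k ^ 3 := by
    rw [Real.rpow_natCast, Real.rpow_natCast, pow_add]
  have h3k : 3 * k ≤ k ^ 3 := by nlinarith [mul_pos hk0 hk0]
  have h4k : 1 + 3 * k ^ 2 ≤ k ^ 3 := by nlinarith [mul_pos hk0 hk0]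
  constructor
  · intro u c v
    match u with
    | .inl u => exact ha.a0 u c v
    | .inr x =>
      show 0 ≤ if c = x.1 ∧ N x.2 v then 1 / k else 0
      split_ifs
      · positivity
      · exact le_rfl
  · intro u c v
    match u with
    | .inl u => exact ha.a1 u c v
    | .inr x =>
      show (if c = x.1 ∧ N x.2 v then 1 / k else 0) ≤ k ^ (-0.99 : ℝ)
      split_ifs
      · rw [one_div, ← Real.rpow_neg_one]
        exact Real.rpow_le_rpow_of_exponent_le (by linarith) (by norm_num)
      · positivity
  · intro u c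
    match u with
    | .inl u => exact ha.s1 u c
    | .inr x =>
      show (∑ y, if c = x.1 ∧ N x.2 y then 1 / k else 0) ≤ 100
      calc (∑ y, if c = x.1 ∧ N x.2 y then 1 / k else 0) ≤
          ∑ y, if N x.2 y then 1 / k else 0 := by
            apply Finset.sum_le_sum
            intro y _
            by_cases h : N x.2 y
            · rw [if_pos h]
              split_ifs
              · exact le_rfl
              · positivity
            · rw [if_neg h, if_neg fun h' => h h'.2]
        _ = ((univ.filter fun y => N x.2 y).card : ℝ) * (1 / k) := by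
            rw [← Finset.sum_filter, Finset.sum_const, nsmul_eq_mul]
        _ ≤ 3 * k * (1 / k) := mul_le_mul_of_nonneg_right (hdeg x.2) (by positivity)
        _ = 3 := by field_simp
        _ ≤ 100 := by norm_num
  · intro u
    rw [hkB3]
    match u with
    | .inl u =>
      refine (ha.c1 u).trans ?_
      have : (1 : ℝ) ≤ k ^ 3 := by linarith
      nlinarith
    | .inr x =>
      have h1 : (univ.filter fun v => ∃ c, ax k N a (.inr x) c v ≠ 0) ⊆
          univ.filter fun y => N x.2 y := by
        intro y hy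
        rw [mem_filter] at hy ⊢
        obtain ⟨_, c, hc⟩ := hy
        refine ⟨mem_univ _, ?_⟩
        by_contra hcon
        apply hc
        show (if c = x.1 ∧ N x.2 y then 1 / k else 0) = 0
        rw [if_neg fun h => hcon h.2]
      have h2 : ((univ.filter fun v => ∃ c, ax k N a (.inr x) c v ≠ 0).card : ℝ) ≤ 3 * k :=
        le_trans (by exact_mod_cast Finset.card_le_card h1) (hdeg x.2)
      refine h2.trans (h3k.trans ?_)
      have : (0 : ℝ) ≤ k ^ 3 := by positivity
      nlinarith
  · intro v
    rw [hkB3, card_filter_sum]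
    have h1 : ((univ.filter fun u => ∃ c, ax k N a (.inl u) c v ≠ 0).card : ℝ) ≤
        k ^ (B : ℝ) := ha.c2 v
    have h2 : ((univ.filter fun x : Fin n × V => ∃ c, ax k N a (.inr x) c v ≠ 0).card : ℝ) ≤
        n * (3 * k) := by
      have h3 : (univ.filter fun x : Fin n × V => ∃ c, ax k N a (.inr x) c v ≠ 0) ⊆
          (univ : Finset (Fin n)) ×ˢ univ.filter fun y => N v y := by
        intro x hx
        rw [mem_filter] at hx
        obtain ⟨_, c, hc⟩ := hx
        rw [mem_product, mem_filter]
        refine ⟨mem_univ _, mem_univ _, ?_⟩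
        by_contra hcon
        apply hc
        show (if c = x.1 ∧ N x.2 v then 1 / k else 0) = 0
        rw [if_neg fun h => hcon (hN.symm _ _ h.2)]
      have h4 := Finset.card_le_card h3
      rw [card_product, Finset.card_univ, Fintype.card_fin] at h4
      calc ((univ.filter fun x : Fin n × V => ∃ c, ax k N a (.inr x) c v ≠ 0).card : ℝ) ≤
          ((n * (univ.filter fun y => N v y).card : ℕ) : ℝ) := by exact_mod_cast h4
        _ = n * ((univ.filter fun y => N v y).card : ℝ) := by push_cast; rfl
        _ ≤ n * (3 * k) := mul_le_mul_of_nonneg_left (hdeg v) (Nat.cast_nonneg _)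
    push_cast
    have h5 : (n : ℝ) * (3 * k) ≤ 3 * k ^ 2 := by nlinarith
    calc _ ≤ k ^ (B : ℝ) + 3 * k ^ 2 := by linarith
      _ ≤ k ^ (B : ℝ) * (1 + 3 * k ^ 2) := by nlinarith [mul_pos hk0 hk0]
      _ ≤ k ^ (B : ℝ) * k ^ 3 := mul_le_mul_of_nonneg_left h4k (by linarith)

/-- **Assembly of WALKS with the linear statistic and few changes.** -/
theorem wallm (hPLK : PLKStmt) (hNUS : NUSStmt) (hITR : ITRStmt) (hCLO : CLOStmt)
    (hOLD : OLDStmt) (hDUP : DUPStmt) (hPIM : PIMStmt) (hNOD : NODStmt) (hPRD : PRDStmt) (hQ23 : Q23Stmt) (hQ6 : Q6Stmt)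
    (hPRC : PRCStmt) (hPRE : PREStmt) (hSUM : SUMGStmt) (hISE : ISEStmt) (hCOI : COIGStmt)
    (hLI1 : LI1Stmt) (hLI2 : LI2Stmt) (hLI3 : LI3Stmt)
    (hNU1 : NU1Stmt) (hNU2 : NUB2Stmt) (hNU3 : NUB3Stmt) (hNU4 : NUB4Stmt) : WALKSMStmt := by
  intro B0
  obtain ⟨k1, h1⟩ := hNU1
  obtain ⟨k2, h2⟩ := hNU2 (B0 + 3)
  obtain ⟨k3, h3⟩ := hNU3 (B0 + 3)
  obtain ⟨k4, h4⟩ := hNU4 (B0 + 3)
  obtain ⟨k5, h5⟩ := hNUS (B0 + 3)
  refine ⟨max (max 1 k5) (max (max k1 k2) (max k3 k4)), 12 * kM (B0 + 3), ?_⟩
  intro V _ N P n f M k s eps U0 _ a0 hk hNH hN hPN hinj hfN hdis hM hout hinn hW0 hMK ha0 hdeg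
  have hk1 : 1 ≤ k := ((le_max_left _ _).trans (le_max_left _ _)).trans hk
  obtain ⟨nS, hk4, hsw1, hsw2⟩ := h5 k n (((le_max_right _ _).trans (le_max_left _ _)).trans hk)
    hNH.nk
  have ha := ax_lin hk4 hNH.nk hN hdeg ha0
  obtain ⟨B, hB⟩ : ∃ B, B = B0 + 3 := ⟨_, rfl⟩
  rw [← hB] at h2 h3 h4 nS hsw1 ha
  rw [← hB]
  obtain ⟨a, haa⟩ : ∃ a : U0 ⊕ (Fin n × V) → Fin n → V → ℝ, a = ax k N a0 := ⟨_, rfl⟩
  rw [← haa] at ha
  have hk' : max (max k1 k2) (max k3 k4) ≤ k := (le_max_right _ _).trans hk
  have n1 := h1 k n s eps (((le_max_left _ _).trans (le_max_left _ _)).trans hk') hNH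
  have n2 := h2 k n s eps (((le_max_right _ _).trans (le_max_left _ _)).trans hk') hNH
  have n3 := h3 k n s eps (((le_max_left _ _).trans (le_max_right _ _)).trans hk') hNH
  have n4 := h4 k n s eps (((le_max_right _ _).trans (le_max_right _ _)).trans hk') hNH
  set C : Fin n → Cl V := fun c => ⟨N, P, f c, M c⟩ with hC
  have hok : ∀ c, (C c).Ok (kd s eps) := by
    intro c
    refine ⟨hN, hPN, fun x y h => (hfN c x y h).1, fun x y h => (hfN c x y h).2, hinj c,
      hM c, n1.d1, fun x => ?_, fun x' => ?_⟩
    · by_cases hx : M c x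
      · exact (hout c x hx).2
      · have : (univ.filter fun x' => (C c).gam x x') = ∅ := by
          ext x'
          simp only [mem_filter, mem_univ, true_and, notMem_empty, iff_false]
          exact fun h => hx h.1
        rw [this, Finset.card_empty, Nat.cast_zero]
        linarith [n1.d1]
    · by_cases hx : M c x'
      · exact (hinn c x' hx).2
      · have : (univ.filter fun x => (C c).gam x x') = ∅ := by
          ext x
          simp only [mem_filter, mem_univ, true_and, notMem_empty, iff_false]
          exact fun h => hx h.2.1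
        rw [this, Finset.card_empty, Nat.cast_zero]
        linarith [n1.d1]
  have hpar : ∀ c, Par (C c) (kd s eps) (kT k) (kp k s) (kz k) (kr k) := fun c =>
    ⟨hok c, n1.T1, n1.Td, n1.p0, n1.ph, n1.pd, n1.z0, n1.zr, n1.r1⟩
  have hlow : ∀ c, Low (C c) (ks1 s eps) (kT k) (kp k s) (kz k) := fun c =>
    ⟨n1.s0, fun x hx => (hout c x hx).1, fun x hx => (hinn c x hx).1, n1.low⟩
  have hL0 : ∀ c x m, 1 ≤ m → it (C c).f m x = some x → kL0 k ≤ m := by
    intro c x m hm hx
    exact Nat.ceil_le.2 (hW0 c x m hm hx)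
  obtain ⟨om, hom, hgst, htch⟩ := stage1m hPLK hNOD hPRD hQ23 hQ6 hPRC hPRE hSUM hISE hLI1 hLI2
    hLI3 C hk1 hNH n1 n2 n4 nS hpar hlow hL0 hMK (U0 ⊕ (Fin n × V)) a ha
  have hcx : ∀ c, PInj (cx (om c)) := fun c => (hPIM V (C c) _ (kT k) (hok c)).inj (om c)
  have hc1 : ∀ u, (univ.filter fun v => ∃ c, a u c v ≠ 0).card ≤ kB1 k B := by
    intro u
    have h := (ha.c1 u).trans (Nat.le_ceil _)
    unfold kB1
    exact_mod_cast h
  have hc2 : ∀ v, (univ.filter fun u => ∃ c, a u c v ≠ 0).card ≤ kB1 k B := by
    intro v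
    have h := (ha.c2 v).trans (Nat.le_ceil _)
    unfold kB1
    exact_mod_cast h
  have hwm : 0 < 2 * kwm k := by have := n4.w0; linarith
  have hlin : ∀ u, 7 * (∑ t ∈ range (11 + 1), ∑ c, ∑ v, gco (kτ k) om 11 (a u) t c v *
      kπ k t) ≤ kX k := by
    intro u
    refine le_trans ?_ n3.lin
    apply mul_le_mul_of_nonneg_left _ (by norm_num)
    rw [Finset.sum_range_succ]
    apply add_le_add
    · apply Finset.sum_le_sum
      intro t ht
      rw [mem_range] at ht
      have e1 : (∑ c, ∑ v, gco (kτ k) om 11 (a u) t c v * kπ k t) =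
          (∑ c, ∑ v, gco (kτ k) om 11 (a u) t c v) * kπ k t := by
        rw [Finset.sum_mul]
        apply Finset.sum_congr rfl
        intro c _
        rw [Finset.sum_mul]
      rw [e1]
      apply mul_le_mul_of_nonneg_right _ (n3.p0 t)
      calc (∑ c, ∑ v, gco (kτ k) om 11 (a u) t c v) ≤
          ∑ c, 2 * ∑ v, a u c v * ind (kτ k) om 11 t c v :=
            Finset.sum_le_sum fun c _ => gco_sum (kτ k) om 11 (a u) hcx (ha.a0 u) t c
        _ = 2 * ∑ c, F2 (kτ k t) (kτ k (t + 1)) (a u c) (om c) := by
            rw [Finset.mul_sum]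
            apply Finset.sum_congr rfl
            intro c _
            congr 1
            unfold F2
            apply Finset.sum_congr rfl
            intro v _
            congr 1
            unfold ind
            have h11 : ¬ t = 11 := by omega
            simp only [h11, false_or]
        _ ≤ _ := by
            have := hom.l3 t ht u
            linarith
    · have e1 : (∑ c, ∑ v, gco (kτ k) om 11 (a u) 11 c v * kπ k 11) =
          (∑ c, ∑ v, gco (kτ k) om 11 (a u) 11 c v) * kπ k 11 := by
        rw [Finset.sum_mul]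
        apply Finset.sum_congr rfl
        intro c _
        rw [Finset.sum_mul]
      rw [e1]
      apply mul_le_mul_of_nonneg_right _ (n3.p0 11)
      calc (∑ c, ∑ v, gco (kτ k) om 11 (a u) 11 c v) ≤
          ∑ _c : Fin n, (200 : ℝ) := by
            apply Finset.sum_le_sum
            intro c _
            refine (gco_sum (kτ k) om 11 (a u) hcx (ha.a0 u) 11 c).trans ?_
            have e2 : (∑ v, a u c v * ind (kτ k) om 11 11 c v) ≤ ∑ v, a u c v :=
              Finset.sum_le_sum fun v _ =>
                mul_le_of_le_one_right (ha.a0 u c v) (ind_le (kτ k) om 11 11 c v)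
            have e3 := ha.s1 u c
            linarith
        _ = 200 * n := by
            rw [Finset.sum_const, Finset.card_univ, Fintype.card_fin, nsmul_eq_mul]
            ring
  obtain ⟨κ, hκ, hκX⟩ := hCOI V n C (kd s eps) (kT k) (kL k) (kL1 k) (kK B) 11 (kM B) (kτ k)
    (kmB k n (kd s eps) B) (kπ k) (kεB k B) om hok n1.L n1.TL n1.L1 (by unfold kM; omega) hMK rfl
    n1.mono hom.mu hom.Iv (fun a => ⟨n3.p0 a, n3.p1 a⟩) n2.e0 n3.ka n3.kb
    (U0 ⊕ (Fin n × V))
    (fun u => gco (kτ k) om 11 (a u)) (2 * kwm k) (kX k) (24 * n * kB1 k B) (2 * kB1 k B) hwm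
    (fun u t c v => ⟨gco_nonneg (kτ k) om 11 (a u) (ha.a0 u) t c v,
      gco_le (kτ k) om 11 (a u) n4.w0.le (ha.a0 u) (ha.a1 u) t c v⟩)
    hlin n3.exp
    (by
      intro u
      refine (gco_card2 (kτ k) om 11 (a u) hcx (univ.filter fun v => ∃ c, a u c v ≠ 0)
        (fun c v hv => mem_filter.2 ⟨mem_univ _, c, hv⟩) (range (11 + 1))).trans ?_
      rw [card_range]
      calc (11 + 1) * (n * (2 * (univ.filter fun v => ∃ c, a u c v ≠ 0).card)) ≤
          (11 + 1) * (n * (2 * kB1 k B)) := by
            apply Nat.mul_le_mul_left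
            apply Nat.mul_le_mul_left
            exact Nat.mul_le_mul_left _ (hc1 u)
        _ = 24 * n * kB1 k B := by ring)
    (by
      intro c v
      refine (Finset.card_le_card (t := (univ.filter fun u => ∃ c, a u c v ≠ 0) ∪
          (match cx (om c) v with
            | some y => univ.filter fun u => ∃ c, a u c y ≠ 0
            | none => ∅)) ?_).trans ((Finset.card_union_le _ _).trans ?_)
      · intro u hu
        rw [mem_filter] at hu
        obtain ⟨_, t, _, ht⟩ := hu
        rw [mem_union]
        rcases gco_ne (kτ k) om 11 (a u) t c v ht with h | ⟨y, h, h'⟩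
        · left
          rw [mem_filter]
          exact ⟨mem_univ _, c, h⟩
        · right
          rw [h]
          simp only [mem_filter, mem_univ, true_and]
          exact ⟨c, h'⟩
      have e4 := hc2 v
      cases hx : cx (om c) v with
      | none => simp only [card_empty]; omega
      | some y =>
        have e5 := hc2 y
        simp only
        omega)
    (by
      have := n3.deg
      rw [mul_assoc] at this
      exact this) n2.e4
  obtain ⟨hD, hwhy⟩ := fin3 hITR hCLO hOLD hDUP (L0 := kL0 k) (A := 11) (τ := kτ k) (κ := κ) hok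
    (fun _ _ => rfl) (by unfold kM; omega) hdis hom.old rfl hom.D hom.Jt hom.Jh hom.dO hom.dI hκ
  have hreason := fun c v => chg_why (C := C) (A := 11) (τ := kτ k) (om := om) (κ := κ)
    (c := c) (v := v)
  set D := H58.DD 11 (kτ k) om κ with hDdef
  have hLIN : ∀ u, (∑ c, ∑ v, a u c v * (if lose C D c v then (1 : ℝ) else 0)) ≤
      k ^ (-0.001 : ℝ) := by
    intro u
    refine le_trans ?_ n4.tot
    have t1 := hom.l1 u
    have t2 := hom.l2 u
    have t3 := hκX u
    have key : ∀ c, (∑ v, a u c v * (if lose C D c v then (1 : ℝ) else 0)) ≤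
        F1 (kτ k 0) (a u c) (om c) + (∑ v, a u c v * (if dup om c v then 1 else 0)) +
        ∑ t ∈ range (11 + 1), ∑ v', gco (kτ k) om 11 (a u) t c v' *
          (if κ t c v' = true then 1 else 0) := by
      intro c
      have e1 := coin_loss (kτ k) om 11 (a u) (ha.a0 u) κ c
      refine le_trans ?_ (add_le_add le_rfl e1)
      unfold F1
      rw [← Finset.sum_add_distrib, ← Finset.sum_add_distrib]
      apply Finset.sum_le_sum
      intro v _
      rw [← mul_add, ← mul_add]
      apply mul_le_mul_of_nonneg_left _ (ha.a0 u c v)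
      have hw := hwhy c v
      by_cases hl : lose C D c v
      · rw [if_pos hl]
        rcases hw hl with h | h | h
        · rw [if_pos h]
          have g1 : (0 : ℝ) ≤ if dup om c v then 1 else 0 := by split_ifs <;> norm_num
          have g2 : (0 : ℝ) ≤ if (∃ t, t ≤ 11 ∧ κ t c v = true ∧
              (t = 11 ∨ Iv (kτ k t) (kτ k (t + 1)) (om c) v)) ∨
            (∃ t v', t ≤ 11 ∧ cx (om c) v' = some v ∧ κ t c v' = true ∧
              (t = 11 ∨ Iv (kτ k t) (kτ k (t + 1)) (om c) v)) then 1 else 0 := by
            split_ifs <;> norm_num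
          linarith
        · have h' : dup om c v := h
          rw [if_pos h']
          have g1 : (0 : ℝ) ≤ if Dv (om c) v ∨ Jt (kτ k 0) (om c) v ∨ Jh (kτ k 0) (om c) v
            then 1 else 0 := by split_ifs <;> norm_num
          have g2 : (0 : ℝ) ≤ if (∃ t, t ≤ 11 ∧ κ t c v = true ∧
              (t = 11 ∨ Iv (kτ k t) (kτ k (t + 1)) (om c) v)) ∨
            (∃ t v', t ≤ 11 ∧ cx (om c) v' = some v ∧ κ t c v' = true ∧
              (t = 11 ∨ Iv (kτ k t) (kτ k (t + 1)) (om c) v)) then 1 else 0 := by
            split_ifs <;> norm_num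
          linarith
        · rw [if_pos h]
          have g1 : (0 : ℝ) ≤ if Dv (om c) v ∨ Jt (kτ k 0) (om c) v ∨ Jh (kτ k 0) (om c) v
            then 1 else 0 := by split_ifs <;> norm_num
          have g2 : (0 : ℝ) ≤ if dup om c v then 1 else 0 := by split_ifs <;> norm_num
          linarith
      · rw [if_neg hl]
        have g1 : (0 : ℝ) ≤ if Dv (om c) v ∨ Jt (kτ k 0) (om c) v ∨ Jh (kτ k 0) (om c) v
          then 1 else 0 := by split_ifs <;> norm_num
        have g2 : (0 : ℝ) ≤ if dup om c v then 1 else 0 := by split_ifs <;> norm_num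
        have g3 : (0 : ℝ) ≤ if (∃ t, t ≤ 11 ∧ κ t c v = true ∧
            (t = 11 ∨ Iv (kτ k t) (kτ k (t + 1)) (om c) v)) ∨
          (∃ t v', t ≤ 11 ∧ cx (om c) v' = some v ∧ κ t c v' = true ∧
            (t = 11 ∨ Iv (kτ k t) (kτ k (t + 1)) (om c) v)) then 1 else 0 := by
          split_ifs <;> norm_num
        linarith
    calc (∑ c, ∑ v, a u c v * (if lose C D c v then (1 : ℝ) else 0)) ≤
        ∑ c, (F1 (kτ k 0) (a u c) (om c) + (∑ v, a u c v * (if dup om c v then 1 else 0)) +
          ∑ t ∈ range (11 + 1), ∑ v', gco (kτ k) om 11 (a u) t c v' *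
            (if κ t c v' = true then 1 else 0)) := Finset.sum_le_sum fun c _ => key c
      _ = (∑ c, F1 (kτ k 0) (a u c) (om c)) +
          (∑ c, ∑ v, a u c v * (if dup om c v then 1 else 0)) +
          ∑ t ∈ range (11 + 1), ∑ c, ∑ v', gco (kτ k) om 11 (a u) t c v' *
            (if κ t c v' = true then 1 else 0) := by
          rw [Finset.sum_add_distrib, Finset.sum_add_distrib, Finset.sum_comm (s := univ)
            (t := range (11 + 1))]
      _ ≤ _ := by linarith
  refine ⟨D, hD, ?_, ?_, ?_⟩
  · intro u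
    have h := hLIN (.inl u)
    rw [haa] at h
    exact h
  · intro v
    have h1 : (univ.filter fun c => chg C D c v) ⊆
        (univ.filter fun c => tch (om c) v) ∪ (univ.filter fun c => cnr 11 (kτ k) om κ c v) := by
      intro c hc
      rw [mem_filter] at hc
      rw [mem_union, mem_filter, mem_filter]
      rcases hreason c v hc.2 with h | h
      · exact Or.inl ⟨mem_univ _, h⟩
      · exact Or.inr ⟨mem_univ _, h⟩
    have h2 := (Finset.card_le_card h1).trans (Finset.card_union_le _ _)
    have h3 := htch v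
    have h4 := cnr_card hκ v
    have h5 : (univ.filter fun c => chg C D c v).card ≤ kS k + 2 * kM B := by omega
    refine le_trans ?_ hsw1
    exact_mod_cast h5
  · intro i v
    have hk0 : 0 < k := by linarith
    have hav : ∀ y, a (.inr (i, v)) i y = if N v y then 1 / k else 0 := by
      intro y
      rw [haa]
      show (if i = i ∧ N v y then 1 / k else 0) = _
      simp
    have h1 : (univ.filter fun y => N v y ∧ chg C D i y) ⊆
        (univ.filter fun y => N v y ∧ tch (om i) y) ∪
        (univ.filter fun y => N v y ∧ cnr 11 (kτ k) om κ i y) := by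
      intro y hy
      rw [mem_filter] at hy
      rw [mem_union, mem_filter, mem_filter]
      rcases hreason i y hy.2.2 with h | h
      · exact Or.inl ⟨mem_univ _, hy.2.1, h⟩
      · exact Or.inr ⟨mem_univ _, hy.2.1, h⟩
    have h2 := (Finset.card_le_card h1).trans (Finset.card_union_le _ _)
    have h3 : ((univ.filter fun y => N v y ∧ tch (om i) y).card : ℝ) ≤ k * kb k := by
      have g := hgst (.inr (i, v)) i
      have g2 : ((univ.filter fun y => N v y ∧ tch (om i) y).card : ℝ) * (1 / k) ≤
          gst (a (.inr (i, v)) i) (om i) := by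
        unfold gst
        calc ((univ.filter fun y => N v y ∧ tch (om i) y).card : ℝ) * (1 / k) =
            ∑ y, if N v y ∧ tch (om i) y then 1 / k else 0 := by
              rw [← Finset.sum_filter, Finset.sum_const, nsmul_eq_mul]
          _ ≤ _ := by
              apply Finset.sum_le_sum
              intro y _
              rw [hav y]
              by_cases hNy : N v y
              · rw [if_pos hNy]
                have e0 : (0 : ℝ) ≤ 1 / k := by positivity
                have e1 : (0 : ℝ) ≤ (mult (om i) y : ℝ) := Nat.cast_nonneg _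
                have e2 : ∀ x ∈ univ.filter (fun x => (C i).f x = some y),
                    (0 : ℝ) ≤ (mult (om i) x : ℝ) := fun _ _ => Nat.cast_nonneg _
                have e3 := Finset.sum_nonneg e2
                by_cases ht : tch (om i) y
                · rw [if_pos ⟨hNy, ht⟩]
                  have e4 : (1 : ℝ) ≤ (mult (om i) y : ℝ) +
                      ∑ x ∈ univ.filter (fun x => (C i).f x = some y),
                        (mult (om i) x : ℝ) := by
                    rcases ht with h | ⟨x, hx, h⟩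
                    · have : 1 ≤ mult (om i) y := Nat.one_le_iff_ne_zero.2 h
                      have : (1 : ℝ) ≤ (mult (om i) y : ℝ) := by exact_mod_cast this
                      linarith
                    · have : 1 ≤ mult (om i) x := Nat.one_le_iff_ne_zero.2 h
                      have h5 : (1 : ℝ) ≤ (mult (om i) x : ℝ) := by exact_mod_cast this
                      have h6 := Finset.single_le_sum e2
                        (show x ∈ univ.filter (fun x => (C i).f x = some y) by
                          rw [mem_filter]; exact ⟨mem_univ _, hx⟩)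
                      linarith
                  calc 1 / k = 1 / k * 1 := (mul_one _).symm
                    _ ≤ _ := mul_le_mul_of_nonneg_left e4 e0
                · rw [if_neg fun h => ht h.2]
                  exact mul_nonneg e0 (add_nonneg e1 e3)
              · rw [if_neg hNy, if_neg fun h => hNy h.1, zero_mul]
      have g3 := g2.trans g
      rw [mul_one_div, div_le_iff₀ hk0] at g3
      linarith
    have h4 : ((univ.filter fun y => N v y ∧ cnr 11 (kτ k) om κ i y).card : ℝ) ≤ k * kX k := by
      have g := hκX (.inr (i, v))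
      have g1 := coin_loss (kτ k) om 11 (a (.inr (i, v))) (ha.a0 (.inr (i, v))) κ i
      have g2 : ∑ t ∈ range (11 + 1), ∑ v', gco (kτ k) om 11 (a (.inr (i, v))) t i v' *
          (if κ t i v' = true then (1 : ℝ) else 0) ≤
          ∑ t ∈ range (11 + 1), ∑ c, ∑ v', gco (kτ k) om 11 (a (.inr (i, v))) t c v' *
          (if κ t c v' = true then 1 else 0) := by
        apply Finset.sum_le_sum
        intro t _
        apply Finset.single_le_sum (f := fun c => ∑ v', gco (kτ k) om 11 (a (.inr (i, v))) t c v' *
          (if κ t c v' = true then (1 : ℝ) else 0)) _ (Finset.mem_univ i)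
        intro c _
        exact Finset.sum_nonneg fun v' _ => mul_nonneg
          (gco_nonneg (kτ k) om 11 (a (.inr (i, v))) (ha.a0 (.inr (i, v))) t c v')
          (by split_ifs <;> norm_num)
      have g3 : ((univ.filter fun y => N v y ∧ cnr 11 (kτ k) om κ i y).card : ℝ) * (1 / k) =
          ∑ y, a (.inr (i, v)) i y * (if cnr 11 (kτ k) om κ i y then 1 else 0) := by
        rw [← nsmul_eq_mul, ← Finset.sum_const, Finset.sum_filter]
        apply Finset.sum_congr rfl
        intro y _
        rw [hav y]
        by_cases hNy : N v y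
        · by_cases hc : cnr 11 (kτ k) om κ i y
          · rw [if_pos ⟨hNy, hc⟩, if_pos hNy, if_pos hc, mul_one]
          · rw [if_neg fun h => hc h.2, if_neg hc, mul_zero]
        · rw [if_neg fun h => hNy h.1, if_neg hNy, zero_mul]
      have g4 : ((univ.filter fun y => N v y ∧ cnr 11 (kτ k) om κ i y).card : ℝ) * (1 / k) ≤
          kX k := by
        rw [g3]
        refine le_trans (le_of_eq ?_) (g1.trans (g2.trans g))
        apply Finset.sum_congr rfl
        intro y _
        by_cases hc : cnr 11 (kτ k) om κ i y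
        · rw [if_pos hc, if_pos (by exact hc)]
        · rw [if_neg hc, if_neg (by exact hc)]
      rw [mul_one_div, div_le_iff₀ hk0] at g4
      linarith
    refine le_trans ?_ hsw2
    calc ((univ.filter fun y => N v y ∧ chg C D i y).card : ℝ) ≤
        (((univ.filter fun y => N v y ∧ tch (om i) y).card +
          (univ.filter fun y => N v y ∧ cnr 11 (kτ k) om κ i y).card : ℕ) : ℝ) := by
          exact_mod_cast h2
      _ ≤ _ := by push_cast; linarith

end

end Pool.Agent.C4K.H82
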