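import Pool.Agent.Helper82_C4K.Sw3

/-!
# WALKSM, part 4: the new numbers
-/

set_option autoImplicit false

namespace Pool.Agent.C4K.H82

open Filter

theorem nus : NUSStmt := by
  intro B
  have T : ∀ (e : ℝ) (c : ℝ), 0 < e → ∀ᶠ k : ℝ in atTop, c ≤ k ^ e := fun e c he =>
    (tendsto_rpow_atTop he).eventually_ge_atTop c
  have E1 := T 0.03 11 (by norm_num)
  have E2 := T 0.9 (150 * ((B : ℝ) + 1)) (by norm_num)
  have E3 := eventually_ge_atTop (4 : ℝ)
  have E4 := T 0.09 2 (by norm_num)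
  have E5 := T 0.9 (1 + 2 * (kM B : ℝ)) (by norm_num)
  have E6 := T 0.001 2 (by norm_num)
  obtain ⟨k0, hk0⟩ := eventually_atTop.1 ((((((E1.and E2).and E3).and E4).and E5).and E6))
  refine ⟨k0, fun k n hk hn => ?_⟩
  obtain ⟨⟨⟨⟨⟨e1, e2⟩, e3⟩, e4⟩, e5⟩, e6⟩ := hk0 k hk
  have kp : 0 < k := by linarith
  have k1 : 1 ≤ k := by linarith
  have hS : k ^ (0.9 : ℝ) ≤ kS k := Nat.le_ceil _
  have hS0 : (0 : ℝ) < k ^ (0.9 : ℝ) := by positivity
  have hSl : (kS k : ℝ) ≤ k ^ (0.9 : ℝ) + 1 := (Nat.ceil_lt_add_one hS0.le).le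
  have hSp : (0 : ℝ) < kS k := lt_of_lt_of_le hS0 hS
  refine ⟨⟨?_, ?_⟩, e3, ?_, ?_⟩
  · exact_mod_cast Nat.one_le_iff_ne_zero.2 (by
      intro h
      rw [h] at hSp
      simp at hSp)
  · have hb : Real.exp 1 * (n * (4 * kr k)) / kS k ≤ k ^ (-0.4 : ℝ) := by
      rw [div_le_iff₀ hSp]
      have h1 : Real.exp 1 ≤ 2.75 := by
        have := Real.exp_one_lt_d9
        linarith
      have h2 : (0 : ℝ) ≤ kr k := by unfold kr; positivity
      have h3 : Real.exp 1 * (n * (4 * kr k)) ≤ 2.75 * (k * (4 * kr k)) := by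
        apply mul_le_mul h1 _ (by positivity) (by norm_num)
        exact mul_le_mul_of_nonneg_right hn (by positivity)
      have h4 : 2.75 * (k * (4 * kr k)) = 11 * k ^ (0.47 : ℝ) := by
        have : k ^ (0.47 : ℝ) = k * kr k := by
          unfold kr
          conv_rhs => rw [← Real.rpow_one k, ← Real.rpow_mul (by linarith), ← Real.rpow_add kp]
          norm_num
        rw [this]; ring
      have h5 : 11 * k ^ (0.47 : ℝ) ≤ k ^ (0.03 : ℝ) * k ^ (0.47 : ℝ) :=
        mul_le_mul_of_nonneg_right e1 (by positivity)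
      have h6 : k ^ (0.03 : ℝ) * k ^ (0.47 : ℝ) = k ^ (-0.4 : ℝ) * k ^ (0.9 : ℝ) := by
        rw [← Real.rpow_add kp, ← Real.rpow_add kp]
        norm_num
      calc Real.exp 1 * (n * (4 * kr k)) ≤ _ := h3
        _ = _ := h4
        _ ≤ _ := h5
        _ = _ := h6
        _ ≤ _ := mul_le_mul_of_nonneg_left hS (by positivity)
    have h0 : 0 ≤ Real.exp 1 * (n * (4 * kr k)) / kS k := by
      have h2 : (0 : ℝ) ≤ kr k := by unfold kr; positivity
      positivity
    have h1 : k ^ (-0.4 : ℝ) ≤ 1 := Real.rpow_le_one_of_one_le_of_nonpos k1 (by norm_num)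
    have hM : 150 * (B + 1) ≤ kS k := by
      have : (150 * ((B : ℝ) + 1)) ≤ kS k := e2.trans hS
      exact_mod_cast this
    calc (Real.exp 1 * (n * (4 * kr k)) / kS k) ^ kS k ≤ (k ^ (-0.4 : ℝ)) ^ kS k :=
          pow_le_pow_left₀ h0 hb _
      _ ≤ (k ^ (-0.4 : ℝ)) ^ (150 * (B + 1)) :=
          pow_le_pow_of_le_one (by positivity) h1 hM
      _ = kεB k B := by
          unfold kεB
          rw [← Real.rpow_natCast, ← Real.rpow_mul kp.le]
          congr 1
          push_cast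
          ring
  · have h1 : k ^ (0.99 : ℝ) = k ^ (0.09 : ℝ) * k ^ (0.9 : ℝ) := by
      rw [← Real.rpow_add kp]; norm_num
    rw [h1]
    nlinarith
  · have h1 : k ^ (0.999 : ℝ) = k ^ (0.001 : ℝ) * k ^ (0.998 : ℝ) := by
      rw [← Real.rpow_add kp]; norm_num
    have h2 : k * kb k = k ^ (0.95 : ℝ) := by
      unfold kb
      conv_lhs => rw [← Real.rpow_one k, ← Real.rpow_mul (by linarith), ← Real.rpow_add kp]
      norm_num
    have h3 : k * kX k = k ^ (0.998 : ℝ) := by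
      unfold kX
      conv_lhs => rw [← Real.rpow_one k, ← Real.rpow_mul (by linarith), ← Real.rpow_add kp]
      norm_num
    have h4 : k ^ (0.95 : ℝ) ≤ k ^ (0.998 : ℝ) :=
      Real.rpow_le_rpow_of_exponent_le k1 (by norm_num)
    have h5 : (0 : ℝ) < k ^ (0.998 : ℝ) := by positivity
    rw [h1, h2, h3]
    nlinarith

end Pool.Agent.C4K.H82
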