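import Pool.Agent.C4K.StNumB
import Pool.Agent.Helper58_C4K.Fin
import Pool.Agent.Helper7_C4K.Wall4

/-!
# WALKSM: walks with the linear statistic and bounds for the number of changes, part 1
-/

set_option autoImplicit false
set_option linter.unusedSectionVars false

namespace Pool.Agent.C4K.H82

open Finset Cl
open scoped Classical

noncomputable section

/-- the arc of class `c` out of `v` or into `v` has changed -/
def chg {V : Type} {n : ℕ} (C : Fin n → Cl V) (D : Fin n → V → Option V) (c : Fin n) (v : V) :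
    Prop := D c v ≠ (C c).f v ∨ ∃ x, (C c).f x = some v ∧ D c x ≠ some v

/-- **WALKS** with the linear statistic and few changes. -/
def WALKSMStmt : Prop := ∀ B : ℕ, ∃ (k0 : ℝ) (C0 : ℕ), ∀ (V : Type) [Fintype V]
  (N P : V → V → Prop) (n : ℕ) (f : Fin n → V → Option V) (M : Fin n → V → Prop) (k s eps : ℝ)
  (U : Type) [Fintype U] (a : U → Fin n → V → ℝ),
  k0 ≤ k → NH k n s eps → C4F N → (∀ x y, P x y → N x y) → (∀ c, PInj (f c)) →
  (∀ c x y, f c x = some y → N x y ∧ ¬ P x y) →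
  (∀ c c' x y, f c x = some y → f c' x = some y → c = c') →
  (∀ c x, M c x → ∃ y, f c x = some y) →
  (∀ c x, M c x → (1 - eps) * s ≤ (univ.filter fun x' => Cl.gam ⟨N, P, f c, M c⟩ x x').card ∧
    ((univ.filter fun x' => Cl.gam ⟨N, P, f c, M c⟩ x x').card : ℝ) ≤ (1 + eps) * s) →
  (∀ c x', M c x' → (1 - eps) * s ≤ (univ.filter fun x => Cl.gam ⟨N, P, f c, M c⟩ x x').card ∧
    ((univ.filter fun x => Cl.gam ⟨N, P, f c, M c⟩ x x').card : ℝ) ≤ (1 + eps) * s) →
  (∀ c x m, 1 ≤ m → it (f c) m x = some x → k ^ (0.539 : ℝ) / 4 ≤ m) →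
  (∀ c, MK ⟨N, P, f c, M c⟩ (kL1 k)) → LinH k B U a →
  (∀ v, ((univ.filter fun y => N v y).card : ℝ) ≤ 3 * k) →
  ∃ D : Fin n → V → Option V, Out (fun c => ⟨N, P, f c, M c⟩) C0 D ∧
    (∀ u, (∑ c, ∑ v, a u c v * (if lose (fun c => ⟨N, P, f c, M c⟩) D c v then 1 else 0)) ≤
      k ^ (-0.001 : ℝ)) ∧
    (∀ v, ((univ.filter fun c => chg (fun c => ⟨N, P, f c, M c⟩) D c v).card : ℝ) ≤
      k ^ (0.99 : ℝ)) ∧
    ∀ c v, ((univ.filter fun y => N v y ∧ chg (fun c => ⟨N, P, f c, M c⟩) D c y).card : ℝ) ≤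
      k ^ (0.999 : ℝ)

/-! ## the reasons of a change -/

section reasons

variable {V : Type} [Fintype V] {n : ℕ} {C : Fin n → Cl V} {T : ℕ}

/-- the node or its old predecessor is on a walk -/
def tch {C : Cl V} {T : ℕ} (om : C.Wk T → Bool) (v : V) : Prop :=
  mult om v ≠ 0 ∨ ∃ x, C.f x = some v ∧ mult om x ≠ 0

/-- the coin reasons -/
def cnr {n : ℕ} {C : Fin n → Cl V} {T : ℕ} (A : ℕ) (τ : ℕ → ℕ) (om : Cf C T)
    (κ : ℕ → Fin n → V → Bool) (c : Fin n) (v : V) : Prop :=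
  (∃ a, a ≤ A ∧ κ a c v = true ∧ (a = A ∨ Iv (τ a) (τ (a + 1)) (om c) v)) ∨
    ∃ a v', a ≤ A ∧ cx (om c) v' = some v ∧ κ a c v' = true ∧
      (a = A ∨ Iv (τ a) (τ (a + 1)) (om c) v)

theorem chg_why {A : ℕ} {τ : ℕ → ℕ} {om : Cf C T} {κ : ℕ → Fin n → V → Bool} {c : Fin n} {v : V}
    (h : chg C (H58.DD A τ om κ) c v) : tch (om c) v ∨ cnr A τ om κ c v := by
  have hlm : ∀ (om : (C c).Wk T → Bool) x y, lnk om x y → mult om x ≠ 0 := by
    rintro om x y ⟨w, _, i, _, _, _, hm, _⟩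
    omega
  have hcx : ∀ x, mult (om c) x = 0 → ∀ y, cx (om c) x = some y ↔ (C c).f x = some y := by
    intro x hx y
    rw [H58.cx_iff]
    constructor
    · rintro (⟨_, h⟩ | h)
      · exact h
      · exact absurd hx (hlm _ _ _ h)
    · exact fun h => Or.inl ⟨hx, h⟩
  have hjt : ∀ x, Jt (τ 0) (om c) x → mult (om c) x ≠ 0 := by
    rintro x ⟨w, i, l, t, _, ⟨how, _, hl, _⟩, hx⟩ h0
    have := H58.mult_pos how (show w.has x from ⟨l, hl.le, hx⟩)
    omega
  rcases h with h | ⟨x, hx, h⟩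
  · by_cases hm : mult (om c) v = 0
    · right
      have h1 : H58.Del A τ om κ c v := by
        by_contra hd
        apply h
        unfold H58.DD
        rw [if_neg hd]
        apply Option.ext
        intro y
        exact hcx v hm y
      rcases h1 with h1 | ⟨_, a, ha, h1, h2, _⟩ | ⟨_, h1⟩ | ⟨c', y, _, h1, _⟩
      · exact absurd hm (hjt v h1)
      · exact Or.inl ⟨a, ha.le, h1, Or.inr h2⟩
      · exact Or.inl ⟨A, le_rfl, h1, Or.inl rfl⟩
      · exact absurd hm (hlm _ _ _ h1)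
    · exact Or.inl (Or.inl hm)
  · by_cases hm : mult (om c) x = 0
    · right
      have hxv : cx (om c) x = some v := (hcx x hm v).2 hx
      have h1 : H58.Del A τ om κ c x := by
        by_contra hd
        apply h
        unfold H58.DD
        rw [if_neg hd]
        exact hxv
      rcases h1 with h1 | ⟨_, a, ha, h1, _, v', h2, h3⟩ | ⟨_, h1⟩ | ⟨c', y, _, h1, _⟩
      · exact absurd hm (hjt x h1)
      · rw [hxv] at h2
        have h4 := Option.some.inj h2
        subst h4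
        exact Or.inr ⟨a, x, ha.le, hxv, h1, Or.inr h3⟩
      · exact Or.inr ⟨A, x, le_rfl, hxv, h1, Or.inl rfl⟩
      · exact absurd hm (hlm _ _ _ h1)
    · exact Or.inl (Or.inr ⟨x, hx, hm⟩)

/-- FIN with the explicit classes -/
theorem fin3 (hI : ITRStmt) (hC : CLOStmt) (hO : OLDStmt) (hDup : DUPStmt) {d : ℝ}
    {L L0 A m0 : ℕ} {τ : ℕ → ℕ} {om : Cf C T} {κ : ℕ → Fin n → V → Bool}
    (hok : ∀ c, (C c).Ok d) (hP : ∀ c c', (C c).P = (C c').P) (hm0 : 1 ≤ m0)
    (hdis : ∀ c c' x y, (C c).f x = some y → (C c').f x = some y → c = c')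
    (hold : ∀ c v, (∀ j, j < L0 → it (C c).f j v ≠ none) →
      ∃ j u, it (C c).f j v = some u ∧ mult (om c) u ≠ 0)
    (hA : τ A = L)
    (hDv : ∀ v, (univ.filter fun c => Dv (om c) v).card ≤ m0)
    (hJt : ∀ v, (univ.filter fun c => Jt (τ 0) (om c) v).card ≤ m0)
    (hJh : ∀ v, (univ.filter fun c => Jh (τ 0) (om c) v).card ≤ m0)
    (hdO : ∀ v, om ∉ dupO m0 v) (hdI : ∀ v, om ∉ dupI m0 v) (hcoin : Coins L A m0 τ om κ) :
    Out C (12 * m0) (H58.DD A τ om κ) ∧
      ∀ c v, lose C (H58.DD A τ om κ) c v → why A τ om κ c v := by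
  have hpim := fun c => H58.pim V (C c) d T (hok c)
  refine ⟨⟨?_, ?_, ?_, ?_, ?_, ?_, ?_, ?_⟩, ?_⟩
  · intro c x x' y h h'
    exact (hpim c).inj (om c) x x' y (H58.DD_some h).2 (H58.DD_some h').2
  · intro c x y h
    rcases (H58.cx_iff (om c) x y).1 (H58.DD_some h).2 with ⟨_, h1⟩ | h1
    · exact Or.inl h1
    · exact Or.inr ((hpim c).new (om c) x y h1)
  · intro c x y h
    exact (hpim c).dom (om c) x y (H58.DD_some h).2
  · intro c x y h
    exact (hpim c).ran (om c) x y (H58.DD_some h).2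
  · intro c x hx
    unfold H58.DD
    rw [if_neg fun h => hx (H58.Del_M h)]
    exact (hpim c).unm (om c) x hx
  · intro c c' x y h h'
    obtain ⟨h1, h2⟩ := H58.DD_some h
    obtain ⟨h1', h2'⟩ := H58.DD_some h'
    rcases (H58.cx_iff (om c) x y).1 h2 with ⟨_, h3⟩ | h3 <;>
      rcases (H58.cx_iff (om c') x y).1 h2' with ⟨_, h3'⟩ | h3'
    · exact hdis c c' x y h3 h3'
    · have h4 := ((hpim c').new (om c') x y h3').2
      rw [hP c' c] at h4
      exact absurd h4 ((hok c).fP x y h3)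
    · have h4 := ((hpim c).new (om c) x y h3).2
      rw [hP c c'] at h4
      exact absurd h4 ((hok c').fP x y h3')
    · by_contra hne
      exact h1 (Or.inr (Or.inr (Or.inr ⟨c', y, fun h => hne h.symm, h3, h3'⟩)))
  · intro c x m hm
    exact H58.acyc hI hC hO hok hold hA hcoin c x m hm
  · intro v
    have hd := hDup V n C d T hok om v m0 hm0
    have h1 : (univ.filter fun c => (∃ y, (C c).f v = some y) ∧
        H58.DD A τ om κ c v = none).card ≤ 6 * m0 := by
      refine H58.four_card _ (univ.filter fun c => Dv (om c) v)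
        (univ.filter fun c => Jt (τ 0) (om c) v)
        (univ.filter fun c => ∃ c' y, c' ≠ c ∧ lnk (om c) v y ∧ lnk (om c') v y)
        (univ.filter fun c => ∃ a, a ≤ A ∧ (κ a c v = true ∧
          (a = A ∨ Iv (τ a) (τ (a + 1)) (om c) v))) ?_ (hDv v) (hJt v) (hd.1 (hdO v)) ?_
      · intro c hc
        obtain ⟨_, hf, hn⟩ := Finset.mem_filter.1 hc
        simp only [Finset.mem_filter, Finset.mem_univ, true_and]
        exact H58.why_out hf hn
      · refine (H58.coin_card A (fun a c => κ a c v = true ∧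
          (a = A ∨ Iv (τ a) (τ (a + 1)) (om c) v)) _ _ ?_ ?_).trans (hcoin.kb v).le
        · intro a c ha hq
          exact Finset.mem_filter.2 ⟨Finset.mem_product.2
            ⟨Finset.mem_range.2 (by omega), Finset.mem_univ _⟩, hq⟩
        · intro c hc
          exact (Finset.mem_filter.1 hc).2
    have h2 : (univ.filter fun c => (∃ x, (C c).f x = some v) ∧
        ∀ x, H58.DD A τ om κ c x ≠ some v).card ≤ 6 * m0 := by
      refine H58.four_card _ (univ.filter fun c => Dv (om c) v)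
        (univ.filter fun c => Jh (τ 0) (om c) v)
        (univ.filter fun c => ∃ c' x, c' ≠ c ∧ lnk (om c) x v ∧ lnk (om c') x v)
        (univ.filter fun c => ∃ a, a ≤ A ∧ ((∃ v', cx (om c) v' = some v ∧ κ a c v' = true) ∧
          (a = A ∨ Iv (τ a) (τ (a + 1)) (om c) v))) ?_ (hDv v) (hJh v) (hd.2 (hdI v)) ?_
      · intro c hc
        obtain ⟨_, hf, hn⟩ := Finset.mem_filter.1 hc
        simp only [Finset.mem_filter, Finset.mem_univ, true_and]
        exact H58.why_in hf hn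
      · refine (H58.coin_card A (fun a c => (∃ v', cx (om c) v' = some v ∧ κ a c v' = true) ∧
          (a = A ∨ Iv (τ a) (τ (a + 1)) (om c) v)) _ _ ?_ ?_).trans (hcoin.kb' v).le
        · intro a c ha hq
          exact Finset.mem_filter.2 ⟨Finset.mem_product.2
            ⟨Finset.mem_range.2 (by omega), Finset.mem_univ _⟩, hq⟩
        · intro c hc
          exact (Finset.mem_filter.1 hc).2
    omega
  · intro c v h
    rcases h with ⟨hf, hn⟩ | ⟨hf, hn⟩
    · rcases H58.why_out hf hn with h | h | h | ⟨a, ha, h1, h2⟩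
      · exact Or.inl (Or.inl h)
      · exact Or.inl (Or.inr (Or.inl h))
      · exact Or.inr (Or.inl (Or.inl h))
      · exact Or.inr (Or.inr (Or.inl ⟨a, ha, h1, h2⟩))
    · rcases H58.why_in hf hn with h | h | h | ⟨a, ha, ⟨v', h1, h2⟩, h3⟩
      · exact Or.inl (Or.inl h)
      · exact Or.inl (Or.inr (Or.inr h))
      · exact Or.inr (Or.inl (Or.inr h))
      · exact Or.inr (Or.inr (Or.inr ⟨a, v', ha, h1, h2, h3⟩))

/-- few coin reasons at a vertex -/
theorem cnr_card {L A m0 : ℕ} {τ : ℕ → ℕ} {om : Cf C T} {κ : ℕ → Fin n → V → Bool}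
    (hcoin : Coins L A m0 τ om κ) (v : V) :
    (univ.filter fun c => cnr A τ om κ c v).card ≤ 2 * m0 := by
  have h1 : (univ.filter fun c => ∃ a, a ≤ A ∧ (κ a c v = true ∧
      (a = A ∨ Iv (τ a) (τ (a + 1)) (om c) v))).card ≤ m0 := by
    refine (H58.coin_card A (fun a c => κ a c v = true ∧
      (a = A ∨ Iv (τ a) (τ (a + 1)) (om c) v)) _ _ ?_ ?_).trans (hcoin.kb v).le
    · intro a c ha hq
      exact Finset.mem_filter.2 ⟨Finset.mem_product.2
        ⟨Finset.mem_range.2 (by omega), Finset.mem_univ _⟩, hq⟩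
    · intro c hc
      exact (Finset.mem_filter.1 hc).2
  have h2 : (univ.filter fun c => ∃ a, a ≤ A ∧ ((∃ v', cx (om c) v' = some v ∧ κ a c v' = true) ∧
      (a = A ∨ Iv (τ a) (τ (a + 1)) (om c) v))).card ≤ m0 := by
    refine (H58.coin_card A (fun a c => (∃ v', cx (om c) v' = some v ∧ κ a c v' = true) ∧
      (a = A ∨ Iv (τ a) (τ (a + 1)) (om c) v)) _ _ ?_ ?_).trans (hcoin.kb' v).le
    · intro a c ha hq
      exact Finset.mem_filter.2 ⟨Finset.mem_product.2
        ⟨Finset.mem_range.2 (by omega), Finset.mem_univ _⟩, hq⟩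
    · intro c hc
      exact (Finset.mem_filter.1 hc).2
  have h3 : (univ.filter fun c => cnr A τ om κ c v) ⊆
      (univ.filter fun c => ∃ a, a ≤ A ∧ (κ a c v = true ∧
        (a = A ∨ Iv (τ a) (τ (a + 1)) (om c) v))) ∪
      (univ.filter fun c => ∃ a, a ≤ A ∧ ((∃ v', cx (om c) v' = some v ∧ κ a c v' = true) ∧
        (a = A ∨ Iv (τ a) (τ (a + 1)) (om c) v))) := by
    intro c hc
    rw [Finset.mem_filter] at hc
    rw [Finset.mem_union, Finset.mem_filter, Finset.mem_filter]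
    rcases hc.2 with ⟨a, ha, h⟩ | ⟨a, v', ha, h1, h2, h3⟩
    · exact Or.inl ⟨Finset.mem_univ _, a, ha, h⟩
    · exact Or.inr ⟨Finset.mem_univ _, a, ha, ⟨v', h1, h2⟩, h3⟩
  have h4 := (Finset.card_le_card h3).trans (Finset.card_union_le _ _)
  omega

end reasons

end

end Pool.Agent.C4K.H82
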