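import Pool.Agent.C4K.StMul

/-!
# SUM: the lopsided local lemma for the walks
-/

set_option autoImplicit false
set_option linter.unusedSectionVars false

namespace Pool.Agent.C4K.H82

open Finset Cl
open scoped Classical

noncomputable section

variable {V : Type} [Fintype V] {n : ℕ} {C : Fin n → Cl V} {T : ℕ}

/-- all walks -/
abbrev WW (C : Fin n → Cl V) (T : ℕ) : Type := Σ c, (C c).Wk T

/-- flat configurations -/
abbrev OM (C : Fin n → Cl V) (T : ℕ) : Type := WW C T → Bool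

/-- currying -/
def cur (ω : OM C T) : Cf C T := fun c w => ω ⟨c, w⟩

/-- probability on the flat level -/
def PF (C : Fin n → Cl V) (T : ℕ) (p : ℝ) (X : Set (OM C T)) : ℝ :=
  LLLA.Pr (W := WW C T) (α := fun _ => Bool)
    (LLLA.flat (K := fun c => (C c).Wk T) (β := fun _ => Bool) fun _ => qq p) X

theorem qq_prob {W : Type} {p : ℝ} (h0 : 0 ≤ p) (h1 : p ≤ 1) :
    LLLA.IsProb (W := W) (α := fun _ => Bool) (qq p) := by
  refine ⟨fun w a => ?_, fun w => ?_⟩
  · unfold qq; split_ifs <;> linarith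
  · unfold qq; simp

theorem flat_prob' {p : ℝ} (h0 : 0 ≤ p) (h1 : p ≤ 1) :
    LLLA.IsProb (W := WW C T) (α := fun _ => Bool)
      (LLLA.flat (K := fun c => (C c).Wk T) (β := fun _ => Bool) fun _ => qq p) :=
  LLLA.flat_prob (K := fun c => (C c).Wk T) (β := fun _ => Bool) fun _ => qq_prob h0 h1

theorem PF_cur (p : ℝ) (X : Set (Cf C T)) : PF C T p {ω | cur ω ∈ X} = PC C T p X :=
  LLLA.Pr_flat (K := fun c => (C c).Wk T) (β := fun _ => Bool) (fun _ => qq p) X

theorem PF_mono {p : ℝ} (h0 : 0 ≤ p) (h1 : p ≤ 1) {X Y : Set (OM C T)} (h : X ⊆ Y) :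
    PF C T p X ≤ PF C T p Y := LLLA.Pr_mono (flat_prob' h0 h1) h

theorem PF_nonneg {p : ℝ} (h0 : 0 ≤ p) (h1 : p ≤ 1) (X : Set (OM C T)) : 0 ≤ PF C T p X :=
  LLLA.Pr_nonneg (flat_prob' h0 h1) X

theorem PF_empty (p : ℝ) : PF C T p ∅ = 0 := by
  unfold PF LLLA.Pr; simp

/-- probability of an event and of an event of one class -/
theorem pc_and {p : ℝ} (h0 : 0 ≤ p) (h1 : p ≤ 1) (A : Set (Cf C T)) (c : Fin n)
    (Y : Set ((C c).Wk T → Bool)) {ε : ℝ}
    (h : ∀ om, PC C T p {et | fixc c om et ∈ A} ≤ ε) :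
    PC C T p {om | om ∈ A ∧ om c ∈ Y} ≤ ε * (C c).Pr T p Y := by
  have hq : ∀ c, LLLA.IsProb (W := (C c).Wk T) (α := fun _ => Bool) (qq p) :=
    fun c => qq_prob h0 h1
  have hc := LLLA.cwt_prob (K := fun c => (C c).Wk T) (β := fun _ => Bool)
    (q := fun _ => qq p) hq
  have h2 : PC C T p {om | om ∈ A ∧ om c ∈ Y} ≤
      LLLA.Ex (W := Fin n) (α := fun c => (C c).Wk T → Bool)
        (LLLA.cwt (K := fun c => (C c).Wk T) (β := fun _ => Bool) fun _ => qq p)
        (fun om => ε * (Set.indicator Y (fun _ => (1 : ℝ)) (om c))) := by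
    unfold PC
    rw [LLLA.Pr_fub hc {c}]
    apply LLLA.Ex_mono hc
    intro om
    by_cases hY : om c ∈ Y
    · rw [Set.indicator_of_mem hY, mul_one]
      refine le_trans (LLLA.Pr_mono hc ?_) (h om)
      intro et het
      exact het.1
    · rw [Set.indicator_of_notMem hY, mul_zero]
      have : {et : Cf C T | LLLA.mix {c} om et ∈ {om | om ∈ A ∧ om c ∈ Y}} = ∅ := by
        ext et
        simp only [Set.mem_ofPred_eq, Set.mem_empty_iff_false, iff_false, not_and]
        intro _ h3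
        apply hY
        simpa [LLLA.mix] using h3
      rw [this]
      unfold LLLA.Pr
      simp
  refine h2.trans (le_of_eq ?_)
  rw [LLLA.Ex_const_mul, LLLA.Ex_class (K := fun c => (C c).Wk T) (β := fun _ => Bool) hq c]
  congr 1
  unfold Cl.Pr
  rw [LLLA.Pr_eq_Ex]

theorem sum_pr {C0 : Cl V} (p : ℝ) (P : (C0.Wk T → Bool) → V → Prop)
    [∀ om, DecidablePred (P om)] :
    ∑ v, C0.Pr T p {om | P om v} =
      C0.E T p (fun om => ((univ.filter fun v => P om v).card : ℝ)) := by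
  unfold Cl.E Cl.Pr
  have h1 : (fun om : C0.Wk T → Bool => ((univ.filter fun v => P om v).card : ℝ)) =
      fun om => ∑ v, Set.indicator {om | P om v} (fun _ => (1 : ℝ)) om := by
    funext om
    rw [Finset.card_filter]
    push_cast
    apply Finset.sum_congr rfl
    intro v _
    by_cases h : P om v
    · rw [if_pos h, Set.indicator_of_mem (show om ∈ {om | P om v} from h)]
    · rw [if_neg h, Set.indicator_of_notMem (show om ∉ {om | P om v} from h)]
  rw [h1, LLLA.Ex_sum]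
  apply Finset.sum_congr rfl
  intro v _
  rw [LLLA.Pr_eq_Ex]

/-- presence of all walks of a set -/
theorem PF_all {p : ℝ} (h0 : 0 ≤ p) (h1 : p ≤ 1) (c : Fin n) (S : Finset ((C c).Wk T)) :
    PF C T p {ω | ∀ w ∈ S, ω ⟨c, w⟩ = true} = p ^ S.card := by
  have hq := flat_prob' (C := C) (T := T) h0 h1
  have h := LLLA.Pr_biInter hq S (fun w => ({⟨c, w⟩} : Finset (WW C T)))
    (fun w => {ω | ω ⟨c, w⟩ = true}) (by
      intro w _ ω η hw
      have := hw ⟨c, w⟩ (Finset.mem_singleton_self _)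
      show (ω ⟨c, w⟩ = true) = (η ⟨c, w⟩ = true)
      rw [this]) (by
      intro a _ b _ hab
      rw [Finset.disjoint_singleton]
      intro h
      apply hab
      exact eq_of_heq (Sigma.mk.inj h).2)
  have h2 : ∀ w ∈ S, LLLA.Pr (W := WW C T) (α := fun _ => Bool)
      (LLLA.flat (K := fun c => (C c).Wk T) (β := fun _ => Bool) fun _ => qq p)
      {ω | ω ⟨c, w⟩ = true} = p := by
    intro w _
    have h3 := LLLA.Ex_coord hq (⟨c, w⟩ : WW C T) true
    have h4 := LLLA.Ex_ite (LLLA.flat (K := fun c => (C c).Wk T) (β := fun _ => Bool)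
      fun _ => qq p) (fun ω : OM C T => ω ⟨c, w⟩ = true)
    rw [← h4]
    refine (Eq.trans ?_ h3).trans ?_
    · rfl
    · unfold LLLA.flat qq
      simp
  rw [Finset.prod_congr rfl h2, Finset.prod_const] at h
  exact h

/-! ## the three sums -/

section sums

variable (C T) (TY : Type) [Fintype TY] (A : TY → V → Set (Cf C T)) (p ε r : ℝ) (L K0 M0 : ℕ)
  (I : Fin n → V → Finset V) (rel : Fin n → V → Prop) (ε6 : ℝ)

/-- sum over the events of type 1-4 -/
theorem typ1 (h0 : 0 ≤ p) (h1 : p ≤ 1) (hε : 0 ≤ ε)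
    (hA : ∀ τ v c om, PC C T p {et | fixc c om et ∈ A τ v} ≤ ε)
    (e2 : ∀ c u, (C c).E T p (fun om => ((univ.filter fun v => u ∈ nod L om v).card : ℝ)) ≤
      200 * ((L : ℝ) + 1) ^ 2)
    (e3 : ∀ c u, (C c).E T p (fun om => ((univ.filter fun v => ∃ w : (C c).Wk T, om w = true ∧
      w.has u ∧ w.meets (nod L om v)).card : ℝ)) ≤ 400 * ((L : ℝ) + 1) ^ 3)
    (ρ : OM C T) (R Ip : Finset (WW C T)) (U : Fin n → Finset V)
    (hI : ∀ x ∈ R, ρ x = true → x ∈ Ip) (hU : ∀ x ∈ R, ρ x = false → x.2.meets (U x.1)) :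
    ∑ j : TY × V, PF C T p {ω | cur ω ∈ A j.1 j.2 ∧
      ∃ x, x ∈ R ∧ x.2.meets (nod L (cur ω x.1) j.2) ∧ ω x ≠ ρ x} ≤
      Ip.card * ((T : ℝ) + 1) * (Fintype.card TY * ε * (200 * ((L : ℝ) + 1) ^ 2)) +
      (∑ c, ((U c).card : ℝ)) * (Fintype.card TY * ε * (400 * ((L : ℝ) + 1) ^ 3)) := by
  have hq := flat_prob' (C := C) (T := T) h0 h1
  let Y1 : WW C T × ℕ → TY × V → Set (OM C T) := fun y j =>
    {ω | cur ω ∈ A j.1 j.2 ∧ y.1.2.n y.2 ∈ nod L (cur ω y.1.1) j.2}
  let Y2 : (Σ _ : Fin n, V) → TY × V → Set (OM C T) := fun y j =>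
    {ω | cur ω ∈ A j.1 j.2 ∧ ∃ w : (C y.1).Wk T, cur ω y.1 w = true ∧ w.has y.2 ∧
      w.meets (nod L (cur ω y.1) j.2)}
  have hY1 : ∀ y, ∑ j, PF C T p (Y1 y j) ≤
      Fintype.card TY * ε * (200 * ((L : ℝ) + 1) ^ 2) := by
    intro y
    rw [Fintype.sum_prod_type]
    have h2 : ∀ τ, ∑ v, PF C T p (Y1 y (τ, v)) ≤ ε * (200 * ((L : ℝ) + 1) ^ 2) := by
      intro τ
      calc ∑ v, PF C T p (Y1 y (τ, v)) ≤
          ∑ v, ε * (C y.1.1).Pr T p {om | y.1.2.n y.2 ∈ nod L om v} := by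
            apply Finset.sum_le_sum
            intro v _
            have h3 : Y1 y (τ, v) = {ω | cur ω ∈ {om : Cf C T | om ∈ A τ v ∧
                om y.1.1 ∈ {om | y.1.2.n y.2 ∈ nod L om v}}} := rfl
            rw [h3, PF_cur]
            exact pc_and h0 h1 (A τ v) y.1.1 _ (fun om => hA τ v y.1.1 om)
        _ = ε * ∑ v, (C y.1.1).Pr T p {om | y.1.2.n y.2 ∈ nod L om v} := by
            rw [Finset.mul_sum]
        _ ≤ ε * (200 * ((L : ℝ) + 1) ^ 2) := by
            rw [sum_pr p (fun om v => y.1.2.n y.2 ∈ nod L om v)]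
            exact mul_le_mul_of_nonneg_left (e2 y.1.1 _) hε
    calc ∑ τ, ∑ v, PF C T p (Y1 y (τ, v)) ≤ ∑ _τ : TY, ε * (200 * ((L : ℝ) + 1) ^ 2) :=
          Finset.sum_le_sum fun τ _ => h2 τ
      _ = _ := by rw [Finset.sum_const, Finset.card_univ, nsmul_eq_mul]; ring
  have hY2 : ∀ y, ∑ j, PF C T p (Y2 y j) ≤
      Fintype.card TY * ε * (400 * ((L : ℝ) + 1) ^ 3) := by
    intro y
    rw [Fintype.sum_prod_type]
    have h2 : ∀ τ, ∑ v, PF C T p (Y2 y (τ, v)) ≤ ε * (400 * ((L : ℝ) + 1) ^ 3) := by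
      intro τ
      calc ∑ v, PF C T p (Y2 y (τ, v)) ≤
          ∑ v, ε * (C y.1).Pr T p {om | ∃ w : (C y.1).Wk T, om w = true ∧ w.has y.2 ∧
            w.meets (nod L om v)} := by
            apply Finset.sum_le_sum
            intro v _
            have h3 : Y2 y (τ, v) = {ω | cur ω ∈ {om : Cf C T | om ∈ A τ v ∧
                om y.1 ∈ {om | ∃ w : (C y.1).Wk T, om w = true ∧ w.has y.2 ∧
                  w.meets (nod L om v)}}} := rfl
            rw [h3, PF_cur]
            exact pc_and h0 h1 (A τ v) y.1 _ (fun om => hA τ v y.1 om)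
        _ = ε * ∑ v, (C y.1).Pr T p {om | ∃ w : (C y.1).Wk T, om w = true ∧ w.has y.2 ∧
            w.meets (nod L om v)} := by
            rw [Finset.mul_sum]
        _ ≤ ε * (400 * ((L : ℝ) + 1) ^ 3) := by
            rw [sum_pr p (fun om v => ∃ w : (C y.1).Wk T, om w = true ∧ w.has y.2 ∧
              w.meets (nod L om v))]
            exact mul_le_mul_of_nonneg_left (e3 y.1 _) hε
    calc ∑ τ, ∑ v, PF C T p (Y2 y (τ, v)) ≤ ∑ _τ : TY, ε * (400 * ((L : ℝ) + 1) ^ 3) :=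
          Finset.sum_le_sum fun τ _ => h2 τ
      _ = _ := by rw [Finset.sum_const, Finset.card_univ, nsmul_eq_mul]; ring
  have hev : ∀ j : TY × V, PF C T p {ω | cur ω ∈ A j.1 j.2 ∧
      ∃ x, x ∈ R ∧ x.2.meets (nod L (cur ω x.1) j.2) ∧ ω x ≠ ρ x} ≤
      ∑ y ∈ Ip ×ˢ range (T + 1), PF C T p (Y1 y j) +
      ∑ y ∈ (univ : Finset (Fin n)).sigma U, PF C T p (Y2 y j) := by
    intro j
    have h2 : {ω | cur ω ∈ A j.1 j.2 ∧
        ∃ x, x ∈ R ∧ x.2.meets (nod L (cur ω x.1) j.2) ∧ ω x ≠ ρ x} ⊆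
        {ω | ∃ y ∈ Ip ×ˢ range (T + 1), ω ∈ Y1 y j} ∪
        {ω | ∃ y ∈ (univ : Finset (Fin n)).sigma U, ω ∈ Y2 y j} := by
      rintro ω ⟨hA', x, hxR, hm, hne⟩
      by_cases hρ : ρ x = true
      · left
        obtain ⟨i, hi, hin⟩ := hm
        refine ⟨(x, i), ?_, hA', hin⟩
        rw [Finset.mem_product, Finset.mem_range]
        exact ⟨hI x hxR hρ, by omega⟩
      · right
        have hρ' : ρ x = false := by simpa using hρ
        have hω : ω x = true := by
          by_contra h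
          have : ω x = false := by simpa using h
          exact hne (by rw [this, hρ'])
        obtain ⟨i, hi, hin⟩ := hU x hxR hρ'
        refine ⟨⟨x.1, x.2.n i⟩, ?_, hA', x.2, hω, ⟨i, hi, rfl⟩, hm⟩
        rw [Finset.mem_sigma]
        exact ⟨Finset.mem_univ _, hin⟩
    refine (PF_mono h0 h1 h2).trans ((LLLA.Pr_union_le hq _ _).trans ?_)
    exact add_le_add (LLLA.Pr_exists_le hq _ _) (LLLA.Pr_exists_le hq _ _)
  calc ∑ j : TY × V, PF C T p {ω | cur ω ∈ A j.1 j.2 ∧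
      ∃ x, x ∈ R ∧ x.2.meets (nod L (cur ω x.1) j.2) ∧ ω x ≠ ρ x} ≤
      ∑ j : TY × V, (∑ y ∈ Ip ×ˢ range (T + 1), PF C T p (Y1 y j) +
      ∑ y ∈ (univ : Finset (Fin n)).sigma U, PF C T p (Y2 y j)) :=
        Finset.sum_le_sum fun j _ => hev j
    _ = ∑ y ∈ Ip ×ˢ range (T + 1), ∑ j : TY × V, PF C T p (Y1 y j) +
      ∑ y ∈ (univ : Finset (Fin n)).sigma U, ∑ j : TY × V, PF C T p (Y2 y j) := by
        rw [Finset.sum_add_distrib, Finset.sum_comm]
        congr 1
        rw [Finset.sum_comm]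
    _ ≤ ∑ y ∈ Ip ×ˢ range (T + 1), Fintype.card TY * ε * (200 * ((L : ℝ) + 1) ^ 2) +
      ∑ y ∈ (univ : Finset (Fin n)).sigma U,
        Fintype.card TY * ε * (400 * ((L : ℝ) + 1) ^ 3) :=
        add_le_add (Finset.sum_le_sum fun y _ => hY1 y) (Finset.sum_le_sum fun y _ => hY2 y)
    _ = _ := by
        rw [Finset.sum_const, Finset.sum_const, Finset.card_product, Finset.card_range,
          Finset.card_sigma, nsmul_eq_mul, nsmul_eq_mul]
        push_cast
        ring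

/-- sum over the events of type 5 -/
theorem typ5 (h0 : 0 ≤ p) (h1 : p ≤ 1)
    (m5 : ∀ c u0, (∑ _S ∈ (univ : Finset (Finset ((C c).Wk T))).filter
      (fun S => S.card = K0 ∧ (∃ u, ∀ w ∈ S, w.has u) ∧ ∃ w ∈ S, w.has u0), p ^ K0) ≤
      ((T : ℝ) + 1) * (2 * r) ^ K0)
    (ρ : OM C T) (R : Finset (WW C T)) (U : Fin n → Finset V)
    (hU : ∀ x ∈ R, ρ x = false → x.2.meets (U x.1)) :
    ∑ y : (Σ c, Finset ((C c).Wk T)), PF C T p {ω | (y.2.card = K0 ∧
        (∃ u, ∀ w ∈ y.2, w.has u) ∧ ∀ w ∈ y.2, ω ⟨y.1, w⟩ = true) ∧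
      ∃ x, x ∈ R ∧ x ∈ y.2.map ⟨Sigma.mk y.1, sigma_mk_injective⟩ ∧ ω x ≠ ρ x} ≤
      (∑ c, ((U c).card : ℝ)) * (((T : ℝ) + 1) * (2 * r) ^ K0) := by
  rw [Fintype.sum_sigma, Finset.sum_mul]
  apply Finset.sum_le_sum
  intro c _
  have hev : ∀ S : Finset ((C c).Wk T), PF C T p {ω | (S.card = K0 ∧
        (∃ u, ∀ w ∈ S, w.has u) ∧ ∀ w ∈ S, ω ⟨c, w⟩ = true) ∧
      ∃ x, x ∈ R ∧ x ∈ S.map ⟨Sigma.mk c, sigma_mk_injective⟩ ∧ ω x ≠ ρ x} ≤
      ∑ u0 ∈ U c, if S.card = K0 ∧ (∃ u, ∀ w ∈ S, w.has u) ∧ ∃ w ∈ S, w.has u0 then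
        p ^ K0 else 0 := by
    intro S
    by_cases hne : {ω : OM C T | (S.card = K0 ∧
        (∃ u, ∀ w ∈ S, w.has u) ∧ ∀ w ∈ S, ω ⟨c, w⟩ = true) ∧
      ∃ x, x ∈ R ∧ x ∈ S.map ⟨Sigma.mk c, sigma_mk_injective⟩ ∧ ω x ≠ ρ x} = ∅
    · rw [hne, PF_empty]
      apply Finset.sum_nonneg
      intro u0 _
      split_ifs
      · positivity
      · exact le_rfl
    · obtain ⟨ω, ⟨⟨hc, hu, hall⟩, x, hxR, hxS, hne'⟩⟩ := Set.nonempty_iff_ne_empty.2 hne
      rw [Finset.mem_map] at hxS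
      obtain ⟨w, hw, rfl⟩ := hxS
      have hω : ω ⟨c, w⟩ = true := hall w hw
      have hρ : ρ ⟨c, w⟩ = false := by
        by_contra h
        have : ρ ⟨c, w⟩ = true := by simpa using h
        exact hne' (by
          show ω ⟨c, w⟩ = ρ ⟨c, w⟩
          rw [hω, this])
      obtain ⟨i, hi, hin⟩ := hU ⟨c, w⟩ hxR hρ
      have h2 : PF C T p {ω | (S.card = K0 ∧
          (∃ u, ∀ w ∈ S, w.has u) ∧ ∀ w ∈ S, ω ⟨c, w⟩ = true) ∧
          ∃ x, x ∈ R ∧ x ∈ S.map ⟨Sigma.mk c, sigma_mk_injective⟩ ∧ ω x ≠ ρ x} ≤ p ^ K0 := by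
        rw [← hc, ← PF_all h0 h1 c S]
        apply PF_mono h0 h1
        rintro ω ⟨⟨_, _, h3⟩, _⟩
        exact h3
      refine h2.trans ?_
      have h3 : (if S.card = K0 ∧ (∃ u, ∀ w ∈ S, w.has u) ∧ ∃ w' ∈ S, w'.has (w.n i) then
        p ^ K0 else 0) ≤ ∑ u0 ∈ U c, if S.card = K0 ∧ (∃ u, ∀ w ∈ S, w.has u) ∧
          ∃ w ∈ S, w.has u0 then p ^ K0 else 0 := by
        apply Finset.single_le_sum (f := fun u0 => if S.card = K0 ∧ (∃ u, ∀ w ∈ S, w.has u) ∧
          ∃ w ∈ S, w.has u0 then p ^ K0 else 0) _ hin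
        intro u0 _
        split_ifs
        · positivity
        · exact le_rfl
      refine le_trans (le_of_eq ?_) h3
      rw [if_pos ⟨hc, hu, w, hw, i, hi, rfl⟩]
  calc _ ≤ ∑ S : Finset ((C c).Wk T), ∑ u0 ∈ U c,
        (if S.card = K0 ∧ (∃ u, ∀ w ∈ S, w.has u) ∧ ∃ w ∈ S, w.has u0 then
        p ^ K0 else 0) := Finset.sum_le_sum fun S _ => hev S
    _ = ∑ u0 ∈ U c, ∑ S : Finset ((C c).Wk T),
        (if S.card = K0 ∧ (∃ u, ∀ w ∈ S, w.has u) ∧ ∃ w ∈ S, w.has u0 then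
        p ^ K0 else 0) := Finset.sum_comm
    _ ≤ ∑ u0 ∈ U c, ((T : ℝ) + 1) * (2 * r) ^ K0 := by
        apply Finset.sum_le_sum
        intro u0 _
        rw [← Finset.sum_filter]
        exact m5 c u0
    _ = _ := by rw [Finset.sum_const, nsmul_eq_mul]

/-- sum over the events of type 6 -/
theorem typ6 (h0 : 0 ≤ p) (h1 : p ≤ 1) (hε6 : 0 ≤ ε6)
    (hM : ∀ c u, (univ.filter fun v => rel c v ∧ u ∈ I c v).card ≤ M0)
    (h6 : ∀ c v, rel c v → (C c).Pr T p {om | ∀ u ∈ I c v, mult om u = 0} ≤ ε6)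
    (ρ : OM C T) (R Ip : Finset (WW C T)) (hI : ∀ x ∈ R, ρ x = true → x ∈ Ip) :
    ∑ j : Fin n × V, PF C T p {ω | (rel j.1 j.2 ∧ ∀ u ∈ I j.1 j.2, mult (cur ω j.1) u = 0) ∧
      ∃ x, x ∈ R ∧ (x.1 = j.1 ∧ x.2.meets (I x.1 j.2)) ∧ ω x ≠ ρ x} ≤
      Ip.card * ((T : ℝ) + 1) * (M0 * ε6) := by
  have hq := flat_prob' (C := C) (T := T) h0 h1
  have hcls : ∀ (c : Fin n) (v : V), rel c v →
      PF C T p {ω | ∀ u ∈ I c v, mult (cur ω c) u = 0} ≤ ε6 := by
    intro c v hr
    have h2 : {ω : OM C T | ∀ u ∈ I c v, mult (cur ω c) u = 0} =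
        {ω | cur ω ∈ {om : Cf C T | om c ∈ {om | ∀ u ∈ I c v, mult om u = 0}}} := rfl
    rw [h2, PF_cur]
    unfold PC
    rw [LLLA.Pr_class (K := fun c => (C c).Wk T) (β := fun _ => Bool)
      (fun c => qq_prob h0 h1) c]
    exact h6 c v hr
  have hev : ∀ j : Fin n × V, PF C T p {ω | (rel j.1 j.2 ∧
        ∀ u ∈ I j.1 j.2, mult (cur ω j.1) u = 0) ∧
      ∃ x, x ∈ R ∧ (x.1 = j.1 ∧ x.2.meets (I x.1 j.2)) ∧ ω x ≠ ρ x} ≤
      ∑ y ∈ Ip ×ˢ range (T + 1),
        if y.1.1 = j.1 ∧ rel y.1.1 j.2 ∧ y.1.2.n y.2 ∈ I y.1.1 j.2 then ε6 else 0 := by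
    intro j
    by_cases hne : {ω : OM C T | (rel j.1 j.2 ∧
        ∀ u ∈ I j.1 j.2, mult (cur ω j.1) u = 0) ∧
      ∃ x, x ∈ R ∧ (x.1 = j.1 ∧ x.2.meets (I x.1 j.2)) ∧ ω x ≠ ρ x} = ∅
    · rw [hne, PF_empty]
      apply Finset.sum_nonneg
      intro y _
      split_ifs
      · exact hε6
      · exact le_rfl
    · obtain ⟨ω, ⟨⟨hr, hmu⟩, x, hxR, ⟨hx1, i, hi, hin⟩, hne'⟩⟩ :=
        Set.nonempty_iff_ne_empty.2 hne
      have hω : ω x = false := by
        by_contra h
        have h2 : ω x = true := by simpa using h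
        have h3 := hmu (x.2.n i) (by rw [← hx1]; exact hin)
        unfold mult at h3
        rw [Finset.card_eq_zero, Finset.filter_eq_empty_iff] at h3
        rcases x with ⟨c, w⟩
        simp only at hx1
        subst hx1
        exact h3 (Finset.mem_univ w) ⟨h2, i, hi, rfl⟩
      have hρ : ρ x = true := by
        by_contra h
        have : ρ x = false := by simpa using h
        exact hne' (by rw [hω, this])
      have h2 : PF C T p {ω | (rel j.1 j.2 ∧
          ∀ u ∈ I j.1 j.2, mult (cur ω j.1) u = 0) ∧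
          ∃ x, x ∈ R ∧ (x.1 = j.1 ∧ x.2.meets (I x.1 j.2)) ∧ ω x ≠ ρ x} ≤ ε6 := by
        refine le_trans (PF_mono h0 h1 ?_) (hcls j.1 j.2 hr)
        rintro ω ⟨⟨_, h3⟩, _⟩
        exact h3
      refine h2.trans ?_
      have hmem : (x, i) ∈ Ip ×ˢ range (T + 1) := by
        rw [Finset.mem_product, Finset.mem_range]
        exact ⟨hI x hxR hρ, by omega⟩
      refine le_trans (le_of_eq ?_) (Finset.single_le_sum (f := fun y : WW C T × ℕ =>
        if y.1.1 = j.1 ∧ rel y.1.1 j.2 ∧ y.1.2.n y.2 ∈ I y.1.1 j.2 then ε6 else 0) ?_ hmem)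
      · simp only
        rw [if_pos ⟨hx1, by rw [hx1]; exact hr, hin⟩]
      · intro y _
        split_ifs
        · exact hε6
        · exact le_rfl
  calc _ ≤ ∑ j : Fin n × V, ∑ y ∈ Ip ×ˢ range (T + 1),
        (if y.1.1 = j.1 ∧ rel y.1.1 j.2 ∧ y.1.2.n y.2 ∈ I y.1.1 j.2 then ε6 else 0) :=
        Finset.sum_le_sum fun j _ => hev j
    _ = ∑ y ∈ Ip ×ˢ range (T + 1), ∑ j : Fin n × V,
        (if y.1.1 = j.1 ∧ rel y.1.1 j.2 ∧ y.1.2.n y.2 ∈ I y.1.1 j.2 then ε6 else 0) :=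
        Finset.sum_comm
    _ ≤ ∑ y ∈ Ip ×ˢ range (T + 1), M0 * ε6 := by
        apply Finset.sum_le_sum
        intro y _
        rw [← Finset.sum_filter, Finset.sum_const, nsmul_eq_mul]
        apply mul_le_mul_of_nonneg_right _ hε6
        have h2 : ((univ : Finset (Fin n × V)).filter fun j =>
            y.1.1 = j.1 ∧ rel y.1.1 j.2 ∧ y.1.2.n y.2 ∈ I y.1.1 j.2).card ≤
            (univ.filter fun v => rel y.1.1 v ∧ y.1.2.n y.2 ∈ I y.1.1 v).card := by
          apply Finset.card_le_card_of_injOn (fun j => j.2)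
          · intro j hj
            simp only [Finset.coe_filter, Finset.mem_univ, true_and, Set.mem_ofPred_eq] at hj ⊢
            exact hj.2
          · intro j hj j' hj' h
            simp only [Finset.coe_filter, Finset.mem_univ, true_and, Set.mem_ofPred_eq] at hj hj'
            exact Prod.ext (hj.1.symm.trans hj'.1) h
        exact_mod_cast h2.trans (hM _ _)
    _ = _ := by
        rw [Finset.sum_const, Finset.card_product, Finset.card_range, nsmul_eq_mul]
        push_cast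
        ring

/-! ## the events -/

/-- index of the events -/
abbrev VX : Type := (TY × V) ⊕ ((Σ c, Finset ((C c).Wk T)) ⊕ (Fin n × V))

/-- the bad events -/
def Aev : VX C T TY → Set (OM C T)
  | .inl j => {ω | cur ω ∈ A j.1 j.2}
  | .inr (.inl y) => {ω | y.2.card = K0 ∧ (∃ u, ∀ w ∈ y.2, w.has u) ∧
      ∀ w ∈ y.2, ω ⟨y.1, w⟩ = true}
  | .inr (.inr j) => {ω | rel j.1 j.2 ∧ ∀ u ∈ I j.1 j.2, mult (cur ω j.1) u = 0}

/-- the reading sets -/
def Rev : VX C T TY → OM C T → Finset (WW C T)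
  | .inl j => fun ω => univ.filter fun x => x.2.meets (nod L (cur ω x.1) j.2)
  | .inr (.inl y) => fun _ => y.2.map ⟨Sigma.mk y.1, sigma_mk_injective⟩
  | .inr (.inr j) => fun _ => univ.filter fun x => x.1 = j.1 ∧ x.2.meets (I x.1 j.2)

theorem mult_congr {C0 : Cl V} {om om' : C0.Wk T → Bool} {u : V}
    (h : ∀ w : C0.Wk T, w.has u → om' w = om w) : mult om' u = mult om u := by
  unfold mult
  congr 1
  ext w
  simp only [Finset.mem_filter, Finset.mem_univ, true_and]
  constructor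
  · rintro ⟨h1, h2⟩
    exact ⟨by rw [← h w h2]; exact h1, h2⟩
  · rintro ⟨h1, h2⟩
    exact ⟨by rw [h w h2]; exact h1, h2⟩

theorem stop_ev (hN : ∀ c, Nds (C c) T L)
    (hag : ∀ τ v om om', agr L om om' v → (om' ∈ A τ v ↔ om ∈ A τ v)) (j : VX C T TY) :
    LLLA.IsStop (Rev C T TY L I j) (Aev C T TY A K0 I rel j) := by
  rcases j with ⟨τ, v⟩ | ⟨y | ⟨c, v⟩⟩
  · refine ⟨?_, ?_⟩
    · intro ω η h
      show (univ.filter fun x : WW C T => x.2.meets (nod L (cur η x.1) v)) =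
        univ.filter fun x : WW C T => x.2.meets (nod L (cur ω x.1) v)
      have h2 : ∀ c, nod L (cur η c) v = nod L (cur ω c) v := fun c =>
        (hN c).stop (cur ω c) (cur η c) v fun w hw => h ⟨c, w⟩ (by
          show (⟨c, w⟩ : WW C T) ∈ univ.filter fun x : WW C T =>
            x.2.meets (nod L (cur ω x.1) v)
          rw [Finset.mem_filter]
          exact ⟨Finset.mem_univ _, hw⟩)
      ext x
      simp only [Finset.mem_filter, Finset.mem_univ, true_and]
      rw [h2]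
    · intro ω η h
      exact hag τ v (cur ω) (cur η) fun c w hw => h ⟨c, w⟩ (by
          show (⟨c, w⟩ : WW C T) ∈ univ.filter fun x : WW C T =>
            x.2.meets (nod L (cur ω x.1) v)
          rw [Finset.mem_filter]
          exact ⟨Finset.mem_univ _, hw⟩)
  · refine ⟨fun _ _ _ => rfl, ?_⟩
    intro ω η h
    show (y.2.card = K0 ∧ (∃ u, ∀ w ∈ y.2, w.has u) ∧ ∀ w ∈ y.2, η ⟨y.1, w⟩ = true) ↔
      (y.2.card = K0 ∧ (∃ u, ∀ w ∈ y.2, w.has u) ∧ ∀ w ∈ y.2, ω ⟨y.1, w⟩ = true)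
    have h2 : ∀ w ∈ y.2, η ⟨y.1, w⟩ = ω ⟨y.1, w⟩ := fun w hw => h ⟨y.1, w⟩ (by
      show (⟨y.1, w⟩ : WW C T) ∈ y.2.map ⟨Sigma.mk y.1, sigma_mk_injective⟩
      rw [Finset.mem_map]
      exact ⟨w, hw, rfl⟩)
    constructor
    · rintro ⟨h3, h4, h5⟩
      exact ⟨h3, h4, fun w hw => by rw [← h2 w hw]; exact h5 w hw⟩
    · rintro ⟨h3, h4, h5⟩
      exact ⟨h3, h4, fun w hw => by rw [h2 w hw]; exact h5 w hw⟩
  · refine ⟨fun _ _ _ => rfl, ?_⟩
    intro ω η h
    show (rel c v ∧ ∀ u ∈ I c v, mult (cur η c) u = 0) ↔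
      (rel c v ∧ ∀ u ∈ I c v, mult (cur ω c) u = 0)
    have h2 : ∀ u ∈ I c v, mult (cur η c) u = mult (cur ω c) u := by
      intro u hu
      apply mult_congr
      intro w hw
      apply h ⟨c, w⟩
      show (⟨c, w⟩ : WW C T) ∈ univ.filter fun x : WW C T => x.1 = c ∧ x.2.meets (I x.1 v)
      rw [Finset.mem_filter]
      obtain ⟨i, hi, hin⟩ := hw
      exact ⟨Finset.mem_univ _, rfl, i, hi, by show w.n i ∈ I c v; rw [hin]; exact hu⟩
    constructor
    · rintro ⟨h3, h4⟩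
      exact ⟨h3, fun u hu => by rw [← h2 u hu]; exact h4 u hu⟩
    · rintro ⟨h3, h4⟩
      exact ⟨h3, fun u hu => by rw [h2 u hu]; exact h4 u hu⟩

end sums

theorem sum (nds : NODStmt) (rct : RCTStmt) (mk0 : MK0Stmt) : SUMStmt := by
  intro V _ n C d T p z r L K0 hn hPar hL hTL hK0 TY _ A ε hε hε4 hag hgood hA I rel M0 ε6
    hε6 hε64 hIc hIm h6 hnum
  have hc0 : (⟨0, hn⟩ : Fin n) = ⟨0, hn⟩ := rfl
  have h0 : 0 ≤ p := (hPar ⟨0, hn⟩).p0.le
  have hph : p ≤ 1 / 2 := (hPar ⟨0, hn⟩).ph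
  have h1 : p ≤ 1 := by linarith
  have hr0 : 0 ≤ r := by
    have := (hPar ⟨0, hn⟩).zr
    rw [← this]
    have := (hPar ⟨0, hn⟩).z0
    positivity
  have hq := flat_prob' (C := C) (T := T) h0 h1
  have hN : ∀ c, Nds (C c) T L := fun c => nds V (C c) d T L (hPar c).ok hL
  have e2 : ∀ c u, (C c).E T p
      (fun om => ((univ.filter fun v => u ∈ nod L om v).card : ℝ)) ≤
      200 * ((L : ℝ) + 1) ^ 2 := fun c u => (rct V (C c) d T p z r L (hPar c) hL hTL u).1
  have e3 : ∀ c u, (C c).E T p (fun om => ((univ.filter fun v => ∃ w : (C c).Wk T,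
      om w = true ∧ w.has u ∧ w.meets (nod L om v)).card : ℝ)) ≤ 400 * ((L : ℝ) + 1) ^ 3 :=
    fun c u => (rct V (C c) d T p z r L (hPar c) hL hTL u).2.2
  have m5 : ∀ c u0, (∑ _S ∈ (univ : Finset (Finset ((C c).Wk T))).filter
      (fun S => S.card = K0 ∧ (∃ u, ∀ w ∈ S, w.has u) ∧ ∃ w ∈ S, w.has u0), p ^ K0) ≤
      ((T : ℝ) + 1) * (2 * r) ^ K0 := fun c u0 =>
    (mk0 V (C c) d T p z r K0 (hPar c) (by omega)).2 u0
  have hNB1 : 1 ≤ NB L K0 := by
    unfold NB
    have h2 : (0 : ℝ) ≤ L := Nat.cast_nonneg L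
    have h3 : (0 : ℝ) ≤ K0 := Nat.cast_nonneg K0
    have h4 : (1 : ℝ) ≤ 4 * L + 5 := by linarith
    have h5 : (1 : ℝ) ≤ 1 + K0 * (4 * L + 5) + K0 := by
      have : (0 : ℝ) ≤ K0 * (4 * L + 5) := by positivity
      linarith
    nlinarith
  have hn1 : (1 : ℝ) ≤ n := by exact_mod_cast hn
  set G1 : ℝ := Fintype.card TY * ε * (200 * ((L : ℝ) + 1) ^ 2) + M0 * ε6 with hG1
  set G2 : ℝ := Fintype.card TY * ε * (400 * ((L : ℝ) + 1) ^ 3) +
    ((T : ℝ) + 1) * (2 * r) ^ K0 with hG2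
  have hG10 : 0 ≤ G1 := by positivity
  have hG20 : 0 ≤ G2 := by positivity
  have hT0 : (0 : ℝ) ≤ (T : ℝ) + 1 := by positivity
  -- the bound for the sum over the neighbours
  have main : ∀ (ρ : OM C T) (R Ip : Finset (WW C T)) (U : Fin n → Finset V) (a b : ℝ),
      (∀ x ∈ R, ρ x = true → x ∈ Ip) → (∀ x ∈ R, ρ x = false → x.2.meets (U x.1)) →
      (Ip.card : ℝ) ≤ a → (∑ c, ((U c).card : ℝ)) ≤ b →
      ∑ j' : VX C T TY, LLLA.Pr (W := WW C T) (α := fun _ => Bool)
        (LLLA.flat (K := fun c => (C c).Wk T) (β := fun _ => Bool) fun _ => qq p)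
        {ω | ω ∈ Aev C T TY A K0 I rel j' ∧ ∃ w, w ∈ R ∧ w ∈ Rev C T TY L I j' ω ∧
          ω w ≠ ρ w} ≤ a * ((T : ℝ) + 1) * G1 + b * G2 := by
    intro ρ R Ip U a b hI hU ha hb
    have t1 := typ1 C T TY A p ε L h0 h1 hε hA e2 e3 ρ R Ip U hI hU
    have t5 := typ5 C T p r K0 h0 h1 m5 ρ R U hU
    have t6 := typ6 C T p M0 I rel ε6 h0 h1 hε6 hIm h6 ρ R Ip hI
    rw [Fintype.sum_sum_type, Fintype.sum_sum_type]
    have hIp0 : (0 : ℝ) ≤ Ip.card := Nat.cast_nonneg _
    have hU0 : 0 ≤ ∑ c, ((U c).card : ℝ) := Finset.sum_nonneg fun c _ => Nat.cast_nonneg _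
    have s1 : ∑ j : TY × V, LLLA.Pr (W := WW C T) (α := fun _ => Bool)
        (LLLA.flat (K := fun c => (C c).Wk T) (β := fun _ => Bool) fun _ => qq p)
        {ω | ω ∈ Aev C T TY A K0 I rel (.inl j) ∧
          ∃ w, w ∈ R ∧ w ∈ Rev C T TY L I (.inl j) ω ∧ ω w ≠ ρ w} ≤
        Ip.card * ((T : ℝ) + 1) * (Fintype.card TY * ε * (200 * ((L : ℝ) + 1) ^ 2)) +
        (∑ c, ((U c).card : ℝ)) * (Fintype.card TY * ε * (400 * ((L : ℝ) + 1) ^ 3)) := by
      refine le_trans (Finset.sum_le_sum fun j _ => ?_) t1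
      apply PF_mono h0 h1
      rintro ω ⟨hA', w, hw1, hw2, hw3⟩
      refine ⟨hA', w, hw1, ?_, hw3⟩
      have hw2' : w ∈ univ.filter fun x : WW C T => x.2.meets (nod L (cur ω x.1) j.2) := hw2
      exact (Finset.mem_filter.1 hw2').2
    have s5 : ∑ y : (Σ c, Finset ((C c).Wk T)), LLLA.Pr (W := WW C T) (α := fun _ => Bool)
        (LLLA.flat (K := fun c => (C c).Wk T) (β := fun _ => Bool) fun _ => qq p)
        {ω | ω ∈ Aev C T TY A K0 I rel (.inr (.inl y)) ∧
          ∃ w, w ∈ R ∧ w ∈ Rev C T TY L I (.inr (.inl y)) ω ∧ ω w ≠ ρ w} ≤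
        (∑ c, ((U c).card : ℝ)) * (((T : ℝ) + 1) * (2 * r) ^ K0) := t5
    have s6 : ∑ j : Fin n × V, LLLA.Pr (W := WW C T) (α := fun _ => Bool)
        (LLLA.flat (K := fun c => (C c).Wk T) (β := fun _ => Bool) fun _ => qq p)
        {ω | ω ∈ Aev C T TY A K0 I rel (.inr (.inr j)) ∧
          ∃ w, w ∈ R ∧ w ∈ Rev C T TY L I (.inr (.inr j)) ω ∧ ω w ≠ ρ w} ≤
        Ip.card * ((T : ℝ) + 1) * (M0 * ε6) := by
      refine le_trans (Finset.sum_le_sum fun j _ => ?_) t6
      apply PF_mono h0 h1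
      rintro ω ⟨hA', w, hw1, hw2, hw3⟩
      refine ⟨hA', w, hw1, ?_, hw3⟩
      have hw2' : w ∈ univ.filter fun x : WW C T => x.1 = j.1 ∧ x.2.meets (I x.1 j.2) := hw2
      exact (Finset.mem_filter.1 hw2').2
    have r1 : (Ip.card : ℝ) * (((T : ℝ) + 1) * G1) ≤ a * (((T : ℝ) + 1) * G1) :=
      mul_le_mul_of_nonneg_right ha (by positivity)
    have r2 : (∑ c, ((U c).card : ℝ)) * G2 ≤ b * G2 := mul_le_mul_of_nonneg_right hb hG20
    calc _ ≤ (Ip.card * ((T : ℝ) + 1) *
            (Fintype.card TY * ε * (200 * ((L : ℝ) + 1) ^ 2)) +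
          (∑ c, ((U c).card : ℝ)) * (Fintype.card TY * ε * (400 * ((L : ℝ) + 1) ^ 3))) +
          ((∑ c, ((U c).card : ℝ)) * (((T : ℝ) + 1) * (2 * r) ^ K0) +
          Ip.card * ((T : ℝ) + 1) * (M0 * ε6)) := add_le_add s1 (add_le_add s5 s6)
      _ = (Ip.card : ℝ) * (((T : ℝ) + 1) * G1) + (∑ c, ((U c).card : ℝ)) * G2 := by
          rw [hG1, hG2]; ring
      _ ≤ a * (((T : ℝ) + 1) * G1) + b * G2 := add_le_add r1 r2
      _ = _ := by ring
  -- apply the local lemma
  have hres := LLLA.stop_lll (W := WW C T) (α := fun _ => Bool) (VV := VX C T TY) hq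
    (Aev C T TY A K0 I rel) (Rev C T TY L I)
    (stop_ev C T TY A L K0 I rel hN hag) ?_ ?_
  · obtain ⟨ω, hω⟩ := hres
    refine ⟨cur ω, ?_, ?_, ?_⟩
    · intro τ v hcon
      exact hω (.inl (τ, v)) hcon
    · intro c u
      by_contra hcon
      push Not at hcon
      obtain ⟨S, hS1, hS2⟩ := Finset.exists_subset_card_eq hcon
      apply hω (.inr (.inl ⟨c, S⟩))
      refine ⟨hS2, ⟨u, fun w hw => ?_⟩, fun w hw => ?_⟩
      · exact (Finset.mem_filter.1 (hS1 hw)).2.2
      · exact (Finset.mem_filter.1 (hS1 hw)).2.1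
    · intro c v hr
      by_contra hcon
      push Not at hcon
      exact hω (.inr (.inr (c, v))) ⟨hr, hcon⟩
  · -- probabilities
    rintro (⟨τ, v⟩ | ⟨y | ⟨c, v⟩⟩)
    · have h2 : LLLA.Pr (W := WW C T) (α := fun _ => Bool)
          (LLLA.flat (K := fun c => (C c).Wk T) (β := fun _ => Bool) fun _ => qq p)
          (Aev C T TY A K0 I rel (.inl (τ, v))) = PC C T p (A τ v) := PF_cur p (A τ v)
      rw [h2]
      refine le_trans ?_ hε4
      unfold PC
      apply LLLA.Pr_le_of_cond (LLLA.cwt_prob (K := fun c => (C c).Wk T)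
        (β := fun _ => Bool) (q := fun _ => qq p) (fun c => qq_prob h0 h1)) {⟨0, hn⟩}
      intro om
      exact hA τ v ⟨0, hn⟩ om
    · by_cases hy : y.2.card = K0
      · have h2 : LLLA.Pr (W := WW C T) (α := fun _ => Bool)
            (LLLA.flat (K := fun c => (C c).Wk T) (β := fun _ => Bool) fun _ => qq p)
            (Aev C T TY A K0 I rel (.inr (.inl y))) ≤ p ^ K0 := by
          rw [← hy, ← PF_all h0 h1 y.1 y.2]
          apply PF_mono h0 h1
          rintro ω ⟨_, _, h3⟩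
          exact h3
        refine h2.trans ?_
        calc p ^ K0 ≤ (1 / 2) ^ K0 := pow_le_pow_left₀ h0 hph K0
          _ ≤ (1 / 2) ^ 2 := pow_le_pow_of_le_one (by norm_num) (by norm_num) hK0
          _ = 1 / 4 := by norm_num
      · have h2 : Aev C T TY A K0 I rel (.inr (.inl y)) = ∅ := by
          ext ω
          constructor
          · rintro ⟨h3, _⟩
            exact absurd h3 hy
          · intro h3
            exact absurd h3 (Set.notMem_empty _)
        rw [h2]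
        have := PF_empty (C := C) (T := T) p
        unfold PF at this
        rw [this]
        norm_num
    · by_cases hr : rel c v
      · have h2 : LLLA.Pr (W := WW C T) (α := fun _ => Bool)
            (LLLA.flat (K := fun c => (C c).Wk T) (β := fun _ => Bool) fun _ => qq p)
            (Aev C T TY A K0 I rel (.inr (.inr (c, v)))) ≤ ε6 := by
          have h3 : Aev C T TY A K0 I rel (.inr (.inr (c, v))) ⊆
              {ω | cur ω ∈ {om : Cf C T | om c ∈ {om | ∀ u ∈ I c v, mult om u = 0}}} := by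
            rintro ω ⟨_, h4⟩
            exact h4
          refine (PF_mono h0 h1 h3).trans ?_
          rw [PF_cur]
          unfold PC
          rw [LLLA.Pr_class (K := fun c => (C c).Wk T) (β := fun _ => Bool)
            (fun c => qq_prob h0 h1) c]
          exact h6 c v hr
        exact h2.trans hε64
      · have h2 : Aev C T TY A K0 I rel (.inr (.inr (c, v))) = ∅ := by
          ext ω
          constructor
          · rintro ⟨h3, _⟩
            exact absurd h3 hr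
          · intro h3
            exact absurd h3 (Set.notMem_empty _)
        rw [h2]
        have := PF_empty (C := C) (T := T) p
        unfold PF at this
        rw [this]
        norm_num
  · -- sums over the neighbours
    have hM0 : (0 : ℝ) ≤ M0 := Nat.cast_nonneg _
    have hK00 : (0 : ℝ) ≤ K0 := Nat.cast_nonneg _
    rintro (⟨τ, v⟩ | ⟨y | ⟨c, v⟩⟩) ρ hρ
    · have hg := hgood τ v (cur ρ) hρ
      have hcard : ∀ c, ((nod L (cur ρ c) v).card : ℝ) ≤ NB L K0 := by
        intro c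
        have h2 := (hN c).card (cur ρ c) v K0 (hg c)
        unfold NB
        exact_mod_cast h2
      refine (main ρ (Rev C T TY L I (.inl (τ, v)) ρ)
        ((Rev C T TY L I (.inl (τ, v)) ρ).filter fun x => ρ x = true)
        (fun c => nod L (cur ρ c) v) (n * K0 * NB L K0) (n * NB L K0) ?_ ?_ ?_ ?_).trans ?_
      · intro x hx hρx
        exact Finset.mem_filter.2 ⟨hx, hρx⟩
      · intro x hx _
        have hx' : x ∈ univ.filter fun x : WW C T => x.2.meets (nod L (cur ρ x.1) v) := hx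
        exact (Finset.mem_filter.1 hx').2
      · have h2 : ((Rev C T TY L I (.inl (τ, v)) ρ).filter fun x => ρ x = true) ⊆
            (univ : Finset (Fin n)).sigma fun c => (nod L (cur ρ c) v).biUnion fun u =>
              univ.filter fun w : (C c).Wk T => cur ρ c w = true ∧ w.has u := by
          intro x hx
          obtain ⟨hx1, hx2⟩ := Finset.mem_filter.1 hx
          have hx' : x ∈ univ.filter fun x : WW C T => x.2.meets (nod L (cur ρ x.1) v) := hx1
          obtain ⟨i, hi, hin⟩ := (Finset.mem_filter.1 hx').2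
          rw [Finset.mem_sigma]
          refine ⟨Finset.mem_univ _, ?_⟩
          rw [Finset.mem_biUnion]
          refine ⟨x.2.n i, hin, ?_⟩
          rw [Finset.mem_filter]
          exact ⟨Finset.mem_univ _, hx2, i, hi, rfl⟩
        have h3 := Finset.card_le_card h2
        rw [Finset.card_sigma] at h3
        have h4 : ∀ c : Fin n, (((nod L (cur ρ c) v).biUnion fun u =>
            univ.filter fun w : (C c).Wk T => cur ρ c w = true ∧ w.has u).card : ℝ) ≤
            K0 * NB L K0 := by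
          intro c
          have h5 := Finset.card_biUnion_le_card_mul (nod L (cur ρ c) v) (fun u =>
            univ.filter fun w : (C c).Wk T => cur ρ c w = true ∧ w.has u) K0
            (fun u hu => (hg c u hu).le)
          calc (((nod L (cur ρ c) v).biUnion fun u =>
            univ.filter fun w : (C c).Wk T => cur ρ c w = true ∧ w.has u).card : ℝ) ≤
              ((nod L (cur ρ c) v).card : ℝ) * K0 := by exact_mod_cast h5
            _ ≤ NB L K0 * K0 := mul_le_mul_of_nonneg_right (hcard c) hK00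
            _ = K0 * NB L K0 := by ring
        calc (((Rev C T TY L I (.inl (τ, v)) ρ).filter fun x => ρ x = true).card : ℝ) ≤
            ((∑ c : Fin n, ((nod L (cur ρ c) v).biUnion fun u =>
              univ.filter fun w : (C c).Wk T => cur ρ c w = true ∧ w.has u).card : ℕ) : ℝ) := by
              exact_mod_cast h3
          _ = ∑ c : Fin n, (((nod L (cur ρ c) v).biUnion fun u =>
              univ.filter fun w : (C c).Wk T => cur ρ c w = true ∧ w.has u).card : ℝ) := by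
              push_cast; rfl
          _ ≤ ∑ _c : Fin n, K0 * NB L K0 := Finset.sum_le_sum fun c _ => h4 c
          _ = n * K0 * NB L K0 := by
              rw [Finset.sum_const, Finset.card_univ, Fintype.card_fin, nsmul_eq_mul]; ring
      · calc ∑ c, ((nod L (cur ρ c) v).card : ℝ) ≤ ∑ _c : Fin n, NB L K0 :=
            Finset.sum_le_sum fun c _ => hcard c
          _ = n * NB L K0 := by
            rw [Finset.sum_const, Finset.card_univ, Fintype.card_fin, nsmul_eq_mul]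
      · refine le_trans ?_ hnum
        have h2 : (n : ℝ) * NB L K0 * G2 ≤ n * (NB L K0 + M0) * G2 := by
          apply mul_le_mul_of_nonneg_right _ hG20
          apply mul_le_mul_of_nonneg_left _ (by linarith)
          linarith
        linarith
    · refine (main ρ (Rev C T TY L I (.inr (.inl y)) ρ) (Rev C T TY L I (.inr (.inl y)) ρ)
        (fun _ => ∅) K0 0 (fun x hx _ => hx) ?_ ?_ ?_).trans ?_
      · intro x hx hρx
        exfalso
        have hx' : x ∈ (y.2.map ⟨Sigma.mk y.1, sigma_mk_injective⟩ : Finset (WW C T)) := hx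
        rw [Finset.mem_map] at hx'
        obtain ⟨w, hw, rfl⟩ := hx'
        have h2 := hρ.2.2 w hw
        have h3 : ρ ⟨y.1, w⟩ = false := hρx
        rw [h2] at h3
        cases h3
      · show (((y.2.map ⟨Sigma.mk y.1, sigma_mk_injective⟩ : Finset (WW C T))).card : ℝ) ≤ K0
        rw [Finset.card_map]
        exact_mod_cast hρ.1.le
      · simp
      · refine le_trans ?_ hnum
        have h2 : (K0 : ℝ) * ((T : ℝ) + 1) * G1 ≤ n * K0 * NB L K0 * ((T : ℝ) + 1) * G1 := by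
          apply mul_le_mul_of_nonneg_right _ hG10
          apply mul_le_mul_of_nonneg_right _ hT0
          have h3 : (1 : ℝ) ≤ n * NB L K0 := by nlinarith
          nlinarith
        have h4 : 0 ≤ (n : ℝ) * (NB L K0 + M0) * G2 := by positivity
        linarith
    · refine (main ρ (Rev C T TY L I (.inr (.inr (c, v))) ρ) ∅
        (fun c' => if c' = c then I c' v else ∅) 0 M0 ?_ ?_ ?_ ?_).trans ?_
      · intro x hx hρx
        exfalso
        have hx' : x ∈ univ.filter fun x : WW C T => x.1 = c ∧ x.2.meets (I x.1 v) := hx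
        obtain ⟨_, hx1, i, hi, hin⟩ := Finset.mem_filter.1 hx'
        rcases x with ⟨c', w⟩
        simp only at hx1
        subst hx1
        have h2 := hρ.2 (w.n i) hin
        unfold mult at h2
        rw [Finset.card_eq_zero, Finset.filter_eq_empty_iff] at h2
        exact h2 (Finset.mem_univ w) ⟨hρx, i, hi, rfl⟩
      · intro x hx _
        have hx' : x ∈ univ.filter fun x : WW C T => x.1 = c ∧ x.2.meets (I x.1 v) := hx
        obtain ⟨_, hx1, hx2⟩ := Finset.mem_filter.1 hx'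
        rw [if_pos hx1]
        exact hx2
      · simp
      · have h2 : ∑ c' : Fin n, (((if c' = c then I c' v else ∅ : Finset V)).card : ℝ) =
            ((I c v).card : ℝ) := by
          rw [Finset.sum_eq_single c]
          · rw [if_pos rfl]
          · intro c' _ hne
            rw [if_neg hne]
            simp
          · intro h
            exact absurd (Finset.mem_univ c) h
        rw [h2]
        exact_mod_cast hIc c v
      · refine le_trans ?_ hnum
        have h2 : (M0 : ℝ) * G2 ≤ n * (NB L K0 + M0) * G2 := by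
          apply mul_le_mul_of_nonneg_right _ hG20
          have h3 : (M0 : ℝ) ≤ NB L K0 + M0 := by linarith
          nlinarith
        have h4 : 0 ≤ (n : ℝ) * K0 * NB L K0 * ((T : ℝ) + 1) * G1 := by positivity
        linarith

end

end Pool.Agent.C4K.H82
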